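import Pool.Agent.Q173.NL.Core
import Pool.Agent.Y743.CL.Fa
import Pool.Agent.W54.TCF.NT

/-! # The ordinates in dyadic blocks of indices -/

set_option autoImplicit false

open Filter Topology Set

namespace Pool.Agent.Q173.NL

open SG (ord NZ)
open Pool.Agent.Y743.LR (act dif yv dif_yv ord_step dif_nonneg ord_tendsto)
open Pool.Agent.Y743.CL (lm lm_nonneg log_nat as1 Ph Ph_lip Ph_nonneg Ph_le_one gs_compl gs_bot
  gs_top blockU blockL gs)

/-- `X(T) = (T / 2π) log T` -/
noncomputable def XX (T : ℝ) : ℝ := T / (2 * Real.pi) * Real.log T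

lemma XX_pos {T : ℝ} (hT : 1 < T) : 0 < XX T := by
  unfold XX
  have := Real.pi_pos
  have := Real.log_pos hT
  positivity

lemma XX_tendsto {T : ℕ → ℝ} (hT : Tendsto T atTop atTop) :
    Tendsto (fun i => XX (T i)) atTop atTop := by
  unfold XX
  have hpi := Real.pi_pos
  exact (hT.atTop_div_const (by positivity)).atTop_mul_atTop₀ (Real.tendsto_log_atTop.comp hT)

lemma NZ_eq (t : ℝ) : NZ t = H370.NN riemannZeta 0 t := by
  unfold SG.NZ H370.NN
  have h : {s : ℂ | riemannZeta s = 0 ∧ 0 < s.re ∧ s.re < 1 ∧ 0 < s.im ∧ s.im ≤ t} =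
      H370.zset riemannZeta 0 t := by
    ext s
    simp only [H370.zset, Set.mem_ofPred_eq]
    tauto
  rw [h]
  rfl

lemma NZ_asymp (ε : ℝ) (hε : 0 < ε) : ∃ T0 : ℝ, 10 ≤ T0 ∧ ∀ T : ℝ, T0 ≤ T →
    (1 - ε) * XX T ≤ (NZ T : ℝ) ∧ (NZ T : ℝ) ≤ (1 + ε) * XX T := by
  obtain ⟨T0, h0, h⟩ := Pool.Agent.W54.TCF.NT_asymp' ε hε
  refine ⟨T0, h0, fun T hT => ?_⟩
  have := h T hT
  rw [← NZ_eq] at this
  exact this

lemma XX_two {T : ℝ} (hT : 1 ≤ T) : 2 * XX T ≤ XX (2 * T) := by
  unfold XX
  have hpi := Real.pi_pos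
  have h1 : Real.log T ≤ Real.log (2 * T) := Real.log_le_log (by linarith) (by linarith)
  have h2 : 0 ≤ 2 * T / (2 * Real.pi) := by
    have : 0 ≤ T := by linarith
    positivity
  calc 2 * (T / (2 * Real.pi) * Real.log T) = 2 * T / (2 * Real.pi) * Real.log T := by ring
    _ ≤ _ := mul_le_mul_of_nonneg_left h1 h2

lemma blk_lo (ε : ℝ) (hε : 0 < ε) : ∃ T0 : ℝ, 10 ≤ T0 ∧ ∀ T : ℝ, T0 ≤ T →
    (1 - ε) * XX T ≤ (NZ (2 * T) : ℝ) - NZ T := by
  wlog hε1 : ε ≤ 1 generalizing ε with H
  · obtain ⟨T0, h0, h⟩ := H 1 one_pos le_rfl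
    refine ⟨T0, h0, fun T hT => ?_⟩
    have h1 := h T hT
    have h2 := XX_pos (show 1 < T by linarith)
    nlinarith
  obtain ⟨T0, h0, h⟩ := NZ_asymp (ε / 3) (by positivity)
  refine ⟨T0, h0, fun T hT => ?_⟩
  have h1 := (h T hT).2
  have h2 := (h (2 * T) (by linarith)).1
  have h3 := XX_two (show 1 ≤ T by linarith)
  have h4 : (1 - ε / 3) * (2 * XX T) ≤ (1 - ε / 3) * XX (2 * T) :=
    mul_le_mul_of_nonneg_left h3 (by linarith)
  linarith

lemma card_eq (a b : ℕ) (P : ℕ → Prop) [DecidablePred P] :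
    (Ioc a b ∩ {n | P n}).ncard = ((Finset.Ioc a b).filter P).card := by
  rw [← Set.ncard_coe_finset]
  congr 1
  ext n
  simp

section

variable {T : ℕ → ℝ}

/-- the block densities for the heights `T i` -/
noncomputable abbrev dz (T : ℕ → ℝ) (i : ℕ) (E : Set ℕ) : ℝ :=
  dn (fun i => NZ (T i)) (fun i => NZ (2 * T i)) (fun i => XX (T i)) i E

lemma dz_le {i : ℕ} {P : ℕ → Prop} [DecidablePred P] {A : ℝ} (hT : 1 < T i)
    (h : (((Finset.Ioc (NZ (T i)) (NZ (2 * T i))).filter P).card : ℝ) ≤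
      T i * Real.log (T i) / (2 * Real.pi) * A) : dz T i {n | P n} ≤ A := by
  unfold dz dn
  rw [div_le_iff₀ (XX_pos hT), card_eq]
  refine h.trans (le_of_eq ?_)
  unfold XX
  ring

lemma log_ev (hTt : Tendsto T atTop atTop) (r : ℕ) :
    ∀ᶠ i in atTop, r * Real.log r ≤ 1 * Real.log (T i) := by
  filter_upwards [(Real.tendsto_log_atTop.comp hTt).eventually_ge_atTop (r * Real.log r)] with i hi
  rw [one_mul]
  exact hi

lemma dv_yv (T : ℝ) (r n : ℕ) :
    dv (yv T) r n = (ord (n + r) - ord n) * (Real.log T / (2 * Real.pi)) - r := by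
  unfold dv yv
  ring

lemma dU (hTt : Tendsto T atTop atTop) (hT10 : ∀ i, 10 ≤ T i) (x ε : ℝ) (hε : 0 < ε) :
    ∀ᶠ r : ℕ in atTop, ∀ᶠ i in atTop,
      dz T i {n | dv (yv (T i)) r n ≤ x * lm r} ≤ Ph x + ε := by
  classical
  filter_upwards [blockU 1 le_rfl x ε hε] with r hr
  filter_upwards [log_ev hTt r] with i hi
  have hT := hT10 i
  have hpi := Real.pi_pos
  have hL : 0 < Real.log (T i) := Real.log_pos (by linarith)
  refine dz_le (by linarith) ?_
  refine le_trans (le_of_eq ?_) (hr (T i) (by linarith) hi)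
  congr 2
  apply Finset.filter_congr
  intro n _
  rw [dv_yv]
  constructor
  · intro h
    have h1 : (ord (n + r) - ord n) * (Real.log (T i) / (2 * Real.pi)) ≤ r + x * lm r := by
      linarith
    rw [← mul_div_assoc, div_le_iff₀ (by positivity)] at h1
    have h2 : ord (n + r) - ord n ≤ (r + x * lm r) * (2 * Real.pi / Real.log (T i)) := by
      rw [← mul_div_assoc, le_div_iff₀ hL]
      exact h1
    linarith
  · intro h
    have h2 : ord (n + r) - ord n ≤ (r + x * lm r) * (2 * Real.pi / Real.log (T i)) := by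
      linarith
    rw [← mul_div_assoc, le_div_iff₀ hL] at h2
    have h1 : (ord (n + r) - ord n) * (Real.log (T i) / (2 * Real.pi)) ≤ r + x * lm r := by
      rw [← mul_div_assoc, div_le_iff₀ (by positivity)]
      exact h2
    linarith

lemma dL (hTt : Tendsto T atTop atTop) (hT10 : ∀ i, 10 ≤ T i) (x ε : ℝ) (hε : 0 < ε) :
    ∀ᶠ r : ℕ in atTop, ∀ᶠ i in atTop,
      dz T i {n | x * lm r - 1 < dv (yv (T i)) r n} ≤ 1 - Ph x + ε := by
  classical
  filter_upwards [blockL 1 le_rfl x ε hε] with r hr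
  filter_upwards [log_ev hTt r] with i hi
  have hT := hT10 i
  have hpi := Real.pi_pos
  have hL : 0 < Real.log (T i) := Real.log_pos (by linarith)
  refine dz_le (by linarith) ?_
  refine le_trans (le_of_eq ?_) (hr (T i) (by linarith) hi)
  congr 2
  apply Finset.filter_congr
  intro n _
  rw [dv_yv]
  constructor
  · intro h
    have h1 : r + x * lm r - 1 < (ord (n + r) - ord n) * (Real.log (T i) / (2 * Real.pi)) := by
      linarith
    rw [← mul_div_assoc, lt_div_iff₀ (by positivity)] at h1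
    have h2 : (r + x * lm r - 1) * (2 * Real.pi / Real.log (T i)) < ord (n + r) - ord n := by
      rw [← mul_div_assoc, div_lt_iff₀ hL]
      exact h1
    linarith
  · intro h
    have h2 : (r + x * lm r - 1) * (2 * Real.pi / Real.log (T i)) < ord (n + r) - ord n := by
      linarith
    rw [← mul_div_assoc, div_lt_iff₀ hL] at h2
    have h1 : r + x * lm r - 1 < (ord (n + r) - ord n) * (Real.log (T i) / (2 * Real.pi)) := by
      rw [← mul_div_assoc, lt_div_iff₀ (by positivity)]
      exact h2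
    linarith

lemma total_ev (hTt : Tendsto T atTop atTop) (hT10 : ∀ i, 10 ≤ T i) :
    ∀ᶠ i in atTop, 15 / 16 ≤ dz T i univ := by
  obtain ⟨T0, _, h⟩ := blk_lo (1 / 16) (by norm_num)
  filter_upwards [hTt.eventually_ge_atTop T0] with i hi
  have hT := hT10 i
  have h1 := h (T i) hi
  have hX := XX_pos (show 1 < T i by linarith)
  unfold dz dn
  rw [le_div_iff₀ hX, inter_univ]
  have h2 : NZ (T i) ≤ NZ (2 * T i) := SG.NZ_mono (by linarith)
  have h3 : (Ioc (NZ (T i)) (NZ (2 * T i))).ncard = NZ (2 * T i) - NZ (T i) := by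
    rw [← Finset.coe_Ioc, Set.ncard_coe_finset, Nat.card_Ioc]
  rw [h3, Nat.cast_sub h2]
  linarith

lemma lm_tendsto : Tendsto lm atTop atTop := by
  unfold lm
  exact (Real.tendsto_sqrt_atTop.comp log_nat).atTop_div_const Real.pi_pos

/-- the ordinates satisfy the hypotheses of the core argument -/
theorem spread (hTt : Tendsto T atTop atTop) (hT10 : ∀ i, 10 ≤ T i) :
    Spread (fun i => NZ (T i)) (fun i => NZ (2 * T i)) (fun i => XX (T i))
      (fun i => yv (T i)) := by
  have hX : ∀ i, 0 < XX (T i) := fun i => XX_pos (by linarith [hT10 i])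
  refine ⟨hX, XX_tendsto hTt, ?_, ?_, ?_⟩
  · intro η hη ε hε
    obtain ⟨K1, hK1⟩ := gs_top (by positivity : 0 < ε / 4)
    obtain ⟨K2, hK2⟩ := gs_bot (by positivity : 0 < ε / 4)
    set K := max K1 K2 with hK
    have h1 : 1 - Ph K ≤ ε / 4 := by
      rw [← gs_compl]
      exact (MeasureTheory.measureReal_mono Ioi_subset_Ici_self
        (MeasureTheory.measure_ne_top _ _)).trans (hK1 K (le_max_left _ _))
    have h2 : Ph (-K) ≤ ε / 4 := hK2 K (le_max_right _ _)
    have h3 := as1 K 0
    have hev := ((dU hTt hT10 (-K) (ε / 4) (by positivity)).and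
      (dL hTt hT10 K (ε / 4) (by positivity))).and
      ((h3.eventually_lt_const hη).and (eventually_gt_atTop 0))
    obtain ⟨r0, h0⟩ := hev.exists_forall_of_atTop
    refine ⟨r0, fun r hr => ?_⟩
    obtain ⟨⟨g1, g2⟩, g3, g4⟩ := h0 r hr
    have hr0 : (0 : ℝ) < r := by exact_mod_cast g4
    rw [add_zero, div_lt_iff₀ hr0] at g3
    filter_upwards [g1, g2] with i g5 g6
    refine (dn_mono hX i (F := {n | dv (yv (T i)) r n ≤ -K * lm r} ∪
      {n | K * lm r - 1 < dv (yv (T i)) r n}) fun n _ _ hn => ?_).trans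
      ((dn_union hX i _ _).trans ?_)
    · have hn : η * r ≤ |dv (yv (T i)) r n| := hn
      rcases le_abs.1 hn with h | h
      · right
        show K * lm r - 1 < dv (yv (T i)) r n
        linarith
      · left
        show dv (yv (T i)) r n ≤ -K * lm r
        linarith
    · have g5 : dz T i {n | dv (yv (T i)) r n ≤ -K * lm r} ≤ Ph (-K) + ε / 4 := g5
      have g6 : dz T i {n | K * lm r - 1 < dv (yv (T i)) r n} ≤ 1 - Ph K + ε / 4 := g6
      unfold dz at g5 g6
      linarith
  · intro K hK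
    have hev := ((dU hTt hT10 (1 / 16) (1 / 16) (by norm_num)).and
      (dL hTt hT10 (-(1 / 16)) (1 / 16) (by norm_num))).and
      ((lm_tendsto.eventually_ge_atTop (16 * K)).and (eventually_ge_atTop 1))
    obtain ⟨r, ⟨g1, g2⟩, g3, g4⟩ := hev.exists
    refine ⟨r, g4, ?_⟩
    filter_upwards [g1, g2, total_ev hTt hT10] with i g5 g6 g7
    set A : Set ℕ := {n | dv (yv (T i)) r n ≤ 1 / 16 * lm r} with hA
    set B : Set ℕ := {n | -(1 / 16) * lm r - 1 < dv (yv (T i)) r n} with hB
    have h1 : dz T i {n | |dv (yv (T i)) r n| < K} ≤ dz T i (A ∩ B) := by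
      refine dn_mono hX i fun n _ _ hn => ?_
      obtain ⟨h2, h3⟩ := abs_lt.1 (show |dv (yv (T i)) r n| < K from hn)
      have hl := lm_nonneg r
      constructor
      · show dv (yv (T i)) r n ≤ 1 / 16 * lm r
        linarith
      · show -(1 / 16) * lm r - 1 < dv (yv (T i)) r n
        linarith
    have h2 : dz T i (A ∩ B) + dz T i univ ≤ dz T i A + dz T i B := by
      unfold dz dn
      rw [← add_div, ← add_div]
      apply div_le_div_of_nonneg_right _ (hX i).le
      have e1 := Set.ncard_union_add_ncard_inter (Ioc (NZ (T i)) (NZ (2 * T i)) ∩ A)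
        (Ioc (NZ (T i)) (NZ (2 * T i)) ∩ B) (fin_blk (a := fun i => NZ (T i))
          (b := fun i => NZ (2 * T i)) i A) (fin_blk (a := fun i => NZ (T i))
          (b := fun i => NZ (2 * T i)) i B)
      have e2 : Ioc (NZ (T i)) (NZ (2 * T i)) ∩ A ∪ Ioc (NZ (T i)) (NZ (2 * T i)) ∩ B =
          Ioc (NZ (T i)) (NZ (2 * T i)) ∩ univ := by
        rw [← inter_union_distrib_left]
        congr 1
        ext n
        simp only [hA, hB, mem_union, mem_ofPred_eq, mem_univ, iff_true]
        have hl := lm_nonneg r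
        by_cases h : dv (yv (T i)) r n ≤ 1 / 16 * lm r
        · left; exact h
        · right
          push Not at h
          linarith
      have e3 : Ioc (NZ (T i)) (NZ (2 * T i)) ∩ A ∩ (Ioc (NZ (T i)) (NZ (2 * T i)) ∩ B) =
          Ioc (NZ (T i)) (NZ (2 * T i)) ∩ (A ∩ B) := by
        ext n
        simp only [mem_inter_iff]
        tauto
      rw [e2, e3] at e1
      have e4 : ((Ioc (NZ (T i)) (NZ (2 * T i)) ∩ (A ∩ B)).ncard : ℝ) +
          (Ioc (NZ (T i)) (NZ (2 * T i)) ∩ univ).ncard =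
          (Ioc (NZ (T i)) (NZ (2 * T i)) ∩ A).ncard +
          (Ioc (NZ (T i)) (NZ (2 * T i)) ∩ B).ncard := by
        rw [add_comm]
        exact_mod_cast e1
      exact e4.le
    have h3 := Ph_lip (show (-(1 / 16) : ℝ) ≤ 1 / 16 by norm_num)
    have g5 : dz T i A ≤ Ph (1 / 16) + 1 / 16 := g5
    have g6 : dz T i B ≤ 1 - Ph (-(1 / 16)) + 1 / 16 := g6
    unfold dz at h1 h2 g5 g6 g7
    linarith
  · filter_upwards [total_ev hTt hT10] with i hi
    unfold dz at hi
    linarith

/-- the gaps are tight -/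
theorem gap_tight (hTt : Tendsto T atTop atTop) (hT10 : ∀ i, 10 ≤ T i) :
    ITight (fun i => NZ (T i)) (fun i => NZ (2 * T i)) (fun i => XX (T i))
      (fun i => dif (yv (T i))) := by
  classical
  intro ε hε
  refine ⟨2 / ε, by positivity, ?_⟩
  filter_upwards [(XX_tendsto hTt).eventually_ge_atTop (2 / ε), total_ev hTt hT10] with i h1 h2
  have hT := hT10 i
  have hX := XX_pos (show 1 < T i by linarith)
  have hpi := Real.pi_pos
  have hL : 0 < Real.log (T i) := Real.log_pos (by linarith)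
  have hne : NZ (T i) + 1 ≤ NZ (2 * T i) := by
    by_contra hcon
    have h3 : Ioc (NZ (T i)) (NZ (2 * T i)) = ∅ := Ioc_eq_empty (by omega)
    unfold dz dn at h2
    rw [h3] at h2
    norm_num at h2
  unfold dn
  rw [div_le_iff₀ hX, card_eq]
  set P : ℕ → Prop := fun n => 2 / ε ≤ |dif (yv (T i)) n| with hP
  have hsub : (Finset.Ioc (NZ (T i)) (NZ (2 * T i))).filter P ⊆
      insert (NZ (2 * T i)) ((Finset.Ico (NZ (T i) + 1) (NZ (2 * T i))).filter P) := by
    intro n hn
    rw [Finset.mem_filter, Finset.mem_Ioc] at hn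
    rw [Finset.mem_insert, Finset.mem_filter, Finset.mem_Ico]
    by_cases h : n = NZ (2 * T i)
    · left; exact h
    · right; exact ⟨⟨by omega, by omega⟩, hn.2⟩
  have hcard := (Finset.card_le_card hsub).trans (Finset.card_insert_le _ _)
  have hsum : (2 / ε) * ((Finset.Ico (NZ (T i) + 1) (NZ (2 * T i))).filter P).card ≤ XX (T i) := by
    calc (2 / ε) * ((Finset.Ico (NZ (T i) + 1) (NZ (2 * T i))).filter P).card =
        ∑ _n ∈ (Finset.Ico (NZ (T i) + 1) (NZ (2 * T i))).filter P, (2 / ε) := by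
          rw [Finset.sum_const, nsmul_eq_mul]; ring
      _ ≤ ∑ n ∈ (Finset.Ico (NZ (T i) + 1) (NZ (2 * T i))).filter P, dif (yv (T i)) n := by
          refine Finset.sum_le_sum fun n hn => ?_
          rw [Finset.mem_filter, Finset.mem_Ico] at hn
          have := hn.2
          rw [hP] at this
          rwa [abs_of_nonneg (dif_nonneg (by linarith) (by omega))] at this
      _ ≤ ∑ n ∈ Finset.Ico (NZ (T i) + 1) (NZ (2 * T i)), dif (yv (T i)) n := by
          refine Finset.sum_le_sum_of_subset_of_nonneg (Finset.filter_subset _ _) fun n hn _ => ?_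
          rw [Finset.mem_Ico] at hn
          exact dif_nonneg (by linarith) (by omega)
      _ = yv (T i) (NZ (2 * T i)) - yv (T i) (NZ (T i) + 1) := by
          unfold dif
          exact Finset.sum_Ico_sub (yv (T i)) hne
      _ ≤ XX (T i) := by
          have h3 : ord (NZ (2 * T i)) ≤ 2 * T i := (SG.ord_le_iff (by omega) _).2 le_rfl
          have h4 : T i < ord (NZ (T i) + 1) := by
            by_contra hcon
            push Not at hcon
            have := (SG.ord_le_iff (by omega) _).1 hcon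
            omega
          unfold yv XX
          have h5 : 0 ≤ Real.log (T i) / (2 * Real.pi) := by positivity
          have h6 : (ord (NZ (2 * T i)) - ord (NZ (T i) + 1)) * (Real.log (T i) / (2 * Real.pi)) ≤
              T i * (Real.log (T i) / (2 * Real.pi)) :=
            mul_le_mul_of_nonneg_right (by linarith) h5
          have h7 : T i / (2 * Real.pi) * Real.log (T i) =
              T i * (Real.log (T i) / (2 * Real.pi)) := by ring
          rw [h7]
          linarith
  have h3 : (((Finset.Ico (NZ (T i) + 1) (NZ (2 * T i))).filter P).card : ℝ) ≤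
      ε / 2 * XX (T i) := by
    have h4 : (((Finset.Ico (NZ (T i) + 1) (NZ (2 * T i))).filter P).card : ℝ) =
        ε / 2 * ((2 / ε) * ((Finset.Ico (NZ (T i) + 1) (NZ (2 * T i))).filter P).card) := by
      field_simp
    rw [h4]
    exact mul_le_mul_of_nonneg_left hsum (by positivity)
  have h4 : (1 : ℝ) ≤ ε / 2 * XX (T i) := by
    rw [div_le_iff₀ hε] at h1
    linarith
  have h5 : (((Finset.Ioc (NZ (T i)) (NZ (2 * T i))).filter P).card : ℝ) ≤
      ((Finset.Ico (NZ (T i) + 1) (NZ (2 * T i))).filter P).card + 1 := by exact_mod_cast hcard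
  linarith

end

end Pool.Agent.Q173.NL
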