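import Pool.Agent.Q173.NL.Zeta
import Pool.Agent.Y743.LR.NT5

/-! # The general contradiction, without the Riemann hypothesis -/

set_option autoImplicit false

open Filter Topology Set Polynomial

namespace Pool.Agent.Q173.NL

open SG (ord NZ)
open Pool.Agent.Y743.LR (act dif yv dif_yv ord_step dif_nonneg ord_tendsto)

lemma XX_six {T : ℝ} (hT : 6 ≤ T) : XX (6 * T) ≤ 12 * XX T := by
  unfold XX
  have hpi := Real.pi_pos
  have h1 : Real.log (6 * T) ≤ 2 * Real.log T := by
    have h2 : Real.log (6 * T) ≤ Real.log (T ^ 2) :=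
      Real.log_le_log (by linarith) (by nlinarith)
    rw [Real.log_pow] at h2
    exact_mod_cast h2
  have h2 : 0 ≤ 6 * T / (2 * Real.pi) := by positivity
  calc 6 * T / (2 * Real.pi) * Real.log (6 * T) ≤ 6 * T / (2 * Real.pi) * (2 * Real.log T) :=
        mul_le_mul_of_nonneg_left h1 h2
    _ = _ := by ring

lemma far (r : ℕ) : ∃ T0 : ℝ, ∀ T : ℝ, T0 ≤ T → NZ (2 * T) + r ≤ NZ (3 * T) := by
  obtain ⟨T1, h10, h1⟩ := NZ_asymp (1 / 100) (by norm_num)
  have hXt : Tendsto XX atTop atTop := by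
    unfold XX
    have hpi := Real.pi_pos
    exact (tendsto_id.atTop_div_const (by positivity)).atTop_mul_atTop₀ Real.tendsto_log_atTop
  obtain ⟨T2, h2⟩ := (hXt.eventually_ge_atTop (2 * r)).exists_forall_of_atTop
  obtain ⟨T3, h3⟩ := (Real.tendsto_log_atTop.eventually_ge_atTop 7).exists_forall_of_atTop
  refine ⟨max T1 (max T2 T3), fun T hT => ?_⟩
  have hT1 : T1 ≤ T := (le_max_left _ _).trans hT
  have hT2 := h2 T (((le_max_left _ _).trans (le_max_right _ _)).trans hT)
  have hT3 := h3 T (((le_max_right _ _).trans (le_max_right _ _)).trans hT)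
  have hTpos : 10 ≤ T := h10.trans hT1
  have hpi := Real.pi_pos
  have a1 := (h1 (3 * T) (by linarith)).1
  have a2 := (h1 (2 * T) (by linarith)).2
  have hX0 := XX_pos (show 1 < T by linarith)
  have a3 : 3 * XX T ≤ XX (3 * T) := by
    unfold XX
    have b1 : Real.log T ≤ Real.log (3 * T) := Real.log_le_log (by linarith) (by linarith)
    have b2 : 0 ≤ 3 * T / (2 * Real.pi) := by positivity
    calc 3 * (T / (2 * Real.pi) * Real.log T) = 3 * T / (2 * Real.pi) * Real.log T := by ring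
      _ ≤ _ := mul_le_mul_of_nonneg_left b1 b2
  have a4 : XX (2 * T) ≤ 22 / 10 * XX T := by
    unfold XX
    have b1 : Real.log (2 * T) ≤ 11 / 10 * Real.log T := by
      rw [Real.log_mul (by norm_num) (by linarith)]
      have := Real.log_two_lt_d9
      linarith
    have b2 : 0 ≤ 2 * T / (2 * Real.pi) := by positivity
    calc 2 * T / (2 * Real.pi) * Real.log (2 * T) ≤
          2 * T / (2 * Real.pi) * (11 / 10 * Real.log T) := mul_le_mul_of_nonneg_left b1 b2
      _ = _ := by ring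
  have a5 : (NZ (2 * T) : ℝ) + r ≤ NZ (3 * T) := by linarith
  exact_mod_cast a5

/-- **the general contradiction**: a relation between the gaps that holds approximately for almost
all indices -/
theorem contra : ∃ κ D T00 : ℝ, 0 < κ ∧ κ ≤ 1 ∧ 3 ≤ D ∧ 10 ≤ T00 ∧
    ∀ (N : ℕ → ℕ) (T : ℕ → ℝ), Tendsto N atTop atTop → (∀ i, T i = ord (N i) / (2 * D)) →
    (∀ i, T00 ≤ T i) → ∀ (S : ℕ → Set ℕ) (ε e : ℕ → ℝ), Tendsto ε atTop (𝓝 0) →
    Tendsto e atTop (𝓝 0) →
    (∀ i, ({n : ℕ | 1 ≤ n ∧ n ≤ N i ∧ n ∈ S i}.ncard : ℝ) ≤ ε i * N i) →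
    ∀ (c : ℝ[X]) (r : ℕ), c ≠ 0 →
    (∀ᶠ i in atTop, ∀ n : ℕ, 1 ≤ n → κ * T i < ord n → ord (n + r) ≤ D * T i → n ∉ S i →
      n + 1 ∉ S i → |act c (dif (yv (T i))) n| ≤
        e i * (1 + ∑ j ∈ Finset.range r, dif (yv (T i)) (n + j))) → False := by
  obtain ⟨T1, h10, h1⟩ := NZ_asymp 1 one_pos
  refine ⟨1, 3, max T1 10, one_pos, le_rfl, le_rfl, le_max_right _ _,
    fun N T hN hTN hT00 S ε e hε he hS c r hc hrel => ?_⟩
  have hT10 : ∀ i, 10 ≤ T i := fun i => (le_max_right _ _).trans (hT00 i)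
  have hT1 : ∀ i, T1 ≤ T i := fun i => (le_max_left _ _).trans (hT00 i)
  have hTt : Tendsto T atTop atTop := by
    have h1 : T = fun i => ord (N i) / (2 * 3) := funext hTN
    rw [h1]
    exact (ord_tendsto.comp hN).atTop_div_const (by positivity)
  have hNT : ∀ i, ord (N i) = 6 * T i := fun i => by
    rw [hTN i]; ring
  have hX : ∀ i, 0 < XX (T i) := fun i => XX_pos (by linarith [hT10 i])
  have hXt := XX_tendsto hTt
  have hNpos : ∀ i, 1 ≤ N i := by
    intro i
    by_contra hcon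
    have h0 : N i = 0 := by omega
    have h1 := hNT i
    rw [h0] at h1
    have h2 : ord 0 = 0 := by
      unfold SG.ord
      have : {t : ℝ | 0 ≤ NZ t} = univ := by
        ext t
        simp
      rw [this]
      exact Real.sInf_univ
    rw [h2] at h1
    have := hT10 i
    linarith
  have hN2 : ∀ i, NZ (2 * T i) + 1 ≤ N i := by
    intro i
    by_contra hcon
    have h3 : N i ≤ NZ (2 * T i) := by omega
    have h4 := (SG.ord_le_iff (hNpos i) _).mpr h3
    rw [hNT i] at h4
    have := hT10 i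
    linarith
  have hNC : ∀ i, (N i : ℝ) ≤ 24 * XX (T i) := by
    intro i
    have h2 : N i ≤ NZ (6 * T i) := (SG.ord_le_iff (hNpos i) _).mp (hNT i).le
    have h3 := (h1 (6 * T i) (by linarith [hT1 i, hT10 i])).2
    have h4 := XX_six (show 6 ≤ T i by linarith [hT10 i])
    have h5 : (N i : ℝ) ≤ NZ (6 * T i) := by exact_mod_cast h2
    linarith
  have hnull : ∀ k : ℕ, k ≤ 1 → ∀ δ : ℝ, 0 < δ → ∀ᶠ i in atTop,
      dz T i {n | n + k ∈ S i} ≤ δ := by
    intro k hk δ hδ
    filter_upwards [hε.eventually_le_const (by positivity : 0 < δ / 24)] with i hi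
    unfold dz dn
    rw [div_le_iff₀ (hX i)]
    have h2 : (Ioc (NZ (T i)) (NZ (2 * T i)) ∩ {n | n + k ∈ S i}).ncard ≤
        {n : ℕ | 1 ≤ n ∧ n ≤ N i ∧ n ∈ S i}.ncard := by
      have hfin : {n : ℕ | 1 ≤ n ∧ n ≤ N i ∧ n ∈ S i}.Finite :=
        (Set.finite_Iic (N i)).subset fun n hn => hn.2.1
      rw [← Set.ncard_image_of_injective (Ioc (NZ (T i)) (NZ (2 * T i)) ∩ {n | n + k ∈ S i})
        (add_left_injective k)]
      apply Set.ncard_le_ncard _ hfin
      rintro _ ⟨n, ⟨⟨a1, a2⟩, a3⟩, rfl⟩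
      have := hN2 i
      exact ⟨by dsimp only; omega, by dsimp only; omega, a3⟩
    calc ((Ioc (NZ (T i)) (NZ (2 * T i)) ∩ {n | n + k ∈ S i}).ncard : ℝ) ≤
          ({n : ℕ | 1 ≤ n ∧ n ≤ N i ∧ n ∈ S i}.ncard : ℝ) := by exact_mod_cast h2
      _ ≤ ε i * N i := hS i
      _ ≤ δ / 24 * N i := mul_le_mul_of_nonneg_right hi (Nat.cast_nonneg _)
      _ ≤ δ / 24 * (24 * XX (T i)) := mul_le_mul_of_nonneg_left (hNC i) (by positivity)
      _ = δ * XX (T i) := by ring
  have htight := gap_tight hTt hT10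
  have hw : INull (fun i => NZ (T i)) (fun i => NZ (2 * T i)) (fun i => XX (T i))
      (fun i n => e i * (1 + ∑ j ∈ Finset.range r, dif (yv (T i)) (n + j))) := by
    refine ITight.null_mul hX ?_ he
    exact (ITight.one hX).add hX (ITight.sum hX (Finset.range r)
      (f := fun j i n => dif (yv (T i)) (n + j)) fun j _ => htight.shift hX hXt j)
  obtain ⟨T4, h4⟩ := far r
  have hact : INull (fun i => NZ (T i)) (fun i => NZ (2 * T i)) (fun i => XX (T i))
      (fun i => act c (dif (yv (T i)))) := by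
    intro η hη δ hδ
    filter_upwards [hnull 0 (by norm_num) (δ / 4) (by positivity),
      hnull 1 le_rfl (δ / 4) (by positivity), hw η hη (δ / 4) (by positivity), hrel,
      hTt.eventually_ge_atTop T4] with i n1 n2 n3 n4 n5
    refine (dn_mono hX i (F := ({n | n + 0 ∈ S i} ∪ {n | n + 1 ∈ S i}) ∪
      {n | η ≤ |e i * (1 + ∑ j ∈ Finset.range r, dif (yv (T i)) (n + j))|})
      fun n hn1 hn2 hn => ?_).trans ?_
    · by_contra hcon
      rw [mem_union, mem_union, not_or, not_or] at hcon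
      obtain ⟨⟨c1, c2⟩, c3⟩ := hcon
      have hn : η ≤ |act c (dif (yv (T i))) n| := hn
      have c1 : n ∉ S i := c1
      have c2 : n + 1 ∉ S i := c2
      have c3 : |e i * (1 + ∑ j ∈ Finset.range r, dif (yv (T i)) (n + j))| < η := not_le.mp c3
      have a1 : 1 * T i < ord n := by
        rw [one_mul]
        by_contra h
        push Not at h
        have := (SG.ord_le_iff (by omega) _).mp h
        omega
      have a2 : ord (n + r) ≤ 3 * T i := by
        have := h4 (T i) n5
        exact (SG.ord_le_iff (by omega) _).mpr (by omega)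
      have a3 := n4 n (by omega) a1 a2 c1 c2
      have a4 := le_abs_self (e i * (1 + ∑ j ∈ Finset.range r, dif (yv (T i)) (n + j)))
      linarith
    · refine (dn_union hX i _ _).trans ?_
      have h5 := dn_union (a := fun i => NZ (T i)) (b := fun i => NZ (2 * T i)) hX i
        {n | n + 0 ∈ S i} {n | n + 1 ∈ S i}
      unfold dz at n1 n2
      linarith
  obtain ⟨P, V, hPV, hP⟩ := structure_thm hX hXt htight hc hact
  refine core_abs (spread hTt hT10) (htight.act hX hXt V) ?_
  refine cast (congrArg _ ?_) hP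
  funext i
  congr 2
  funext n
  exact hPV (yv (T i)) n

end Pool.Agent.Q173.NL
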