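import Pool.Agent.Q173.NL.Dens

/-! # The core argument for the indices -/

set_option autoImplicit false

open Filter Topology Set

namespace Pool.Agent.Q173.NL

open Pool.Agent.Y743.LR (act dif sum_dif)

variable {a b : ℕ → ℕ} {X : ℕ → ℝ}

/-- the deviation of the distance to the `r`-th neighbour -/
def dv (y : ℕ → ℝ) (r n : ℕ) : ℝ := y (n + r) - y n - r

/-- the hypotheses on the spacings: the deviations are `o(r)` in probability and not tight -/
structure Spread (a b : ℕ → ℕ) (X : ℕ → ℝ) (y : ℕ → ℕ → ℝ) : Prop where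
  pos : ∀ i, 0 < X i
  lim : Tendsto X atTop atTop
  small : ∀ η : ℝ, 0 < η → ∀ ε : ℝ, 0 < ε → ∃ r0 : ℕ, ∀ r : ℕ, r0 ≤ r → ∀ᶠ i in atTop,
    dn a b X i {n | η * r ≤ |dv (y i) r n|} ≤ ε
  large : ∀ K : ℝ, 0 < K → ∃ r : ℕ, 1 ≤ r ∧ ∀ᶠ i in atTop,
    dn a b X i {n | |dv (y i) r n| < K} ≤ 1 / 2
  total : ∀ᶠ i in atTop, 3 / 4 < dn a b X i univ

lemma lin_null (hX : ∀ i, 0 < X i) (hXt : Tendsto X atTop atTop) {g : ℕ → ℕ → ℝ}
    (hnull : INull a b X (fun i => dif (dif (g i)))) (r : ℕ) :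
    INull a b X (fun i n => g i (n + r) - g i n - r * dif (g i) n) := by
  have h1 : INull a b X (fun i n => ∑ j ∈ Finset.range r, ∑ l ∈ Finset.range j,
      dif (dif (g i)) (n + l)) :=
    INull.sum hX _ (f := fun j i n => ∑ l ∈ Finset.range j, dif (dif (g i)) (n + l)) fun j _ =>
      INull.sum hX _ (f := fun l i n => dif (dif (g i)) (n + l)) fun l _ => hnull.shift hX hXt l
  refine cast (congrArg _ ?_) h1
  funext i n
  have h2 : ∀ j, ∑ l ∈ Finset.range j, dif (dif (g i)) (n + l) = dif (g i) (n + j) - dif (g i) n :=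
    fun j => sum_dif (dif (g i)) n j
  simp_rw [h2]
  rw [Finset.sum_sub_distrib, sum_dif (g i) n r, Finset.sum_const, Finset.card_range, nsmul_eq_mul]

/-- **the contradiction** -/
theorem core_abs {y x : ℕ → ℕ → ℝ} (D : Spread a b X y) (hx : ITight a b X x)
    (hnull : INull a b X (fun i => dif (dif (fun n => y i n - x i n)))) : False := by
  obtain ⟨hX, hXt, hS, hL, hU⟩ := D
  set g : ℕ → ℕ → ℝ := fun i n => y i n - x i n with hg
  have hlin := lin_null hX hXt hnull
  have key : ∀ i n (r : ℕ), (r : ℝ) * (dif (g i) n - 1) =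
      dv (y i) r n - (x i (n + r) - x i n) - (g i (n + r) - g i n - r * dif (g i) n) := by
    intro i n r
    unfold dv
    simp only [hg]
    ring
  -- the slope tends to one
  have hone : INull a b X (fun i n => dif (g i) n - 1) := by
    intro η hη ε hε
    obtain ⟨K, hK, h1⟩ := hx (ε / 8) (by positivity)
    obtain ⟨r0, h2⟩ := hS (η / 4) (by positivity) (ε / 4) (by positivity)
    obtain ⟨r1, h3⟩ : ∃ r1 : ℕ, 4 * K / η + 1 ≤ r1 := ⟨_, Nat.le_ceil _⟩
    set r := max r0 r1 with hr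
    have hr1 : 4 * K / η + 1 ≤ (r : ℝ) := h3.trans (by exact_mod_cast le_max_right _ _)
    have hr0 : (0 : ℝ) < r := by
      have : 0 < 4 * K / η := by positivity
      linarith
    have hrK : K ≤ η / 4 * r := by
      have h4 : 4 * K / η ≤ r := by linarith
      rw [div_le_iff₀ hη] at h4
      linarith
    filter_upwards [h1, h2 r (le_max_left _ _), hlin r (η / 4 * r) (by positivity) (ε / 4)
      (by positivity), shift_ev (a := a) (b := b) hX hXt r (by positivity : 0 < ε / 8)]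
      with i g1 g2 g3 g4
    have g5 : dn a b X i {n | K ≤ |x i (n + r)|} ≤ ε / 8 + ε / 8 := by
      have := g4 {n | K ≤ |x i n|}
      refine le_trans (le_trans (le_of_eq rfl) this) (by linarith)
    refine (dn_mono hX i (F := (({n | K ≤ |x i n|} ∪ {n | K ≤ |x i (n + r)|}) ∪
      {n | η / 4 * r ≤ |dv (y i) r n|}) ∪
      {n | η / 4 * r ≤ |g i (n + r) - g i n - r * dif (g i) n|}) fun n _ _ hn => ?_).trans ?_
    · have hn : η ≤ |dif (g i) n - 1| := hn
      by_contra hcon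
      rw [mem_union, mem_union, mem_union, not_or, not_or, not_or] at hcon
      obtain ⟨⟨⟨c1, c2⟩, c3⟩, c4⟩ := hcon
      have c1 : |x i n| < K := not_le.mp c1
      have c2 : |x i (n + r)| < K := not_le.mp c2
      have c3 : |dv (y i) r n| < η / 4 * r := not_le.mp c3
      have c4 : |g i (n + r) - g i n - r * dif (g i) n| < η / 4 * r := not_le.mp c4
      have c5 : (r : ℝ) * η ≤ |(r : ℝ) * (dif (g i) n - 1)| := by
        rw [abs_mul, abs_of_pos hr0]
        exact mul_le_mul_of_nonneg_left hn hr0.le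
      have c6 : |(r : ℝ) * (dif (g i) n - 1)| < r * η := by
        rw [key, abs_lt]
        obtain ⟨d1, d2⟩ := abs_lt.mp c1
        obtain ⟨d3, d4⟩ := abs_lt.mp c2
        obtain ⟨d5, d6⟩ := abs_lt.mp c3
        obtain ⟨d7, d8⟩ := abs_lt.mp c4
        constructor <;> linarith
      linarith
    · refine (dn_union hX i _ _).trans ?_
      have e1 := dn_union (a := a) (b := b) hX i ({n | K ≤ |x i n|} ∪ {n | K ≤ |x i (n + r)|})
        {n | η / 4 * r ≤ |dv (y i) r n|}
      have e2 := dn_union (a := a) (b := b) hX i {n | K ≤ |x i n|} {n | K ≤ |x i (n + r)|}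
      linarith
  -- the contradiction
  obtain ⟨K, hK, h1⟩ := hx (1 / 32) (by norm_num)
  obtain ⟨r, hr, h2⟩ := hL (2 * K + 2) (by positivity)
  have hr0 : (0 : ℝ) < r := by exact_mod_cast hr
  have hev := ((h1.and h2).and ((hlin r 1 one_pos (1 / 32) (by norm_num)).and
    (hone (1 / r) (by positivity) (1 / 32) (by norm_num)))).and
    ((shift_ev (a := a) (b := b) hX hXt r (by norm_num : (0 : ℝ) < 1 / 32)).and hU)
  obtain ⟨i, ⟨⟨g1, g2⟩, g3, g4⟩, g5, g6⟩ := hev.exists
  have g7 : dn a b X i {n | K ≤ |x i (n + r)|} ≤ 1 / 32 + 1 / 32 := by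
    have := g5 {n | K ≤ |x i n|}
    refine le_trans (le_trans (le_of_eq rfl) this) (by linarith)
  have g8 : dn a b X i univ ≤ dn a b X i ((({n | K ≤ |x i n|} ∪ {n | K ≤ |x i (n + r)|}) ∪
      ({n | (1 : ℝ) ≤ |g i (n + r) - g i n - r * dif (g i) n|} ∪
        {n | 1 / (r : ℝ) ≤ |dif (g i) n - 1|})) ∪ {n | |dv (y i) r n| < 2 * K + 2}) := by
    refine dn_mono hX i fun n _ _ _ => ?_
    by_contra hcon
    rw [mem_union, mem_union, mem_union, mem_union, not_or, not_or, not_or, not_or] at hcon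
    obtain ⟨⟨⟨c1, c2⟩, c3, c4⟩, c5⟩ := hcon
    have c1 : |x i n| < K := not_le.mp c1
    have c2 : |x i (n + r)| < K := not_le.mp c2
    have c3 : |g i (n + r) - g i n - r * dif (g i) n| < 1 := not_le.mp c3
    have c4 : |dif (g i) n - 1| < 1 / r := not_le.mp c4
    have c5 : 2 * K + 2 ≤ |dv (y i) r n| := not_lt.mp c5
    have c6 : |(r : ℝ) * (dif (g i) n - 1)| < 1 := by
      rw [abs_mul, abs_of_pos hr0]
      rw [lt_div_iff₀ hr0] at c4
      linarith
    rw [key] at c6
    have c7 : |dv (y i) r n| < 2 * K + 2 := by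
      obtain ⟨d1, d2⟩ := abs_lt.mp c1
      obtain ⟨d3, d4⟩ := abs_lt.mp c2
      obtain ⟨d5, d6⟩ := abs_lt.mp c3
      obtain ⟨d7, d8⟩ := abs_lt.mp c6
      rw [abs_lt]
      constructor <;> linarith
    linarith
  have e1 := dn_union (a := a) (b := b) hX i (({n | K ≤ |x i n|} ∪ {n | K ≤ |x i (n + r)|}) ∪
      ({n | (1 : ℝ) ≤ |g i (n + r) - g i n - r * dif (g i) n|} ∪
        {n | 1 / (r : ℝ) ≤ |dif (g i) n - 1|})) {n | |dv (y i) r n| < 2 * K + 2}
  have e2 := dn_union (a := a) (b := b) hX i ({n | K ≤ |x i n|} ∪ {n | K ≤ |x i (n + r)|})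
    ({n | (1 : ℝ) ≤ |g i (n + r) - g i n - r * dif (g i) n|} ∪
        {n | 1 / (r : ℝ) ≤ |dif (g i) n - 1|})
  have e3 := dn_union (a := a) (b := b) hX i {n | K ≤ |x i n|} {n | K ≤ |x i (n + r)|}
  have e4 := dn_union (a := a) (b := b) hX i
    {n | (1 : ℝ) ≤ |g i (n + r) - g i n - r * dif (g i) n|} {n | 1 / (r : ℝ) ≤ |dif (g i) n - 1|}
  linarith

end Pool.Agent.Q173.NL
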