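import Pool.Agent.Y743.LR.Dens

/-! # Densities along blocks of indices

This is the analogue, for the counting of indices instead of the measure of heights, of the file
`Pool.Agent.Y743.LR.Dens`, from which several proofs are adapted. -/

set_option autoImplicit false

open Filter Topology Set Polynomial

namespace Pool.Agent.Q173.NL

open Pool.Agent.Y743.LR (act dif act_apply act_mul act_X_sub_one decomp sum_dif run)

/-- the proportion of the indices in the block `(a i, b i]`, normalised by `X i`, in a set -/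
noncomputable def dn (a b : ℕ → ℕ) (X : ℕ → ℝ) (i : ℕ) (E : Set ℕ) : ℝ :=
  ((Ioc (a i) (b i) ∩ E).ncard : ℝ) / X i

variable {a b : ℕ → ℕ} {X : ℕ → ℝ}

lemma fin_blk (i : ℕ) (E : Set ℕ) : (Ioc (a i) (b i) ∩ E).Finite :=
  (Set.finite_Ioc _ _).subset inter_subset_left

lemma dn_nonneg (hX : ∀ i, 0 < X i) (i : ℕ) (E : Set ℕ) : 0 ≤ dn a b X i E :=
  div_nonneg (Nat.cast_nonneg _) (hX i).le

lemma dn_mono (hX : ∀ i, 0 < X i) (i : ℕ) {E F : Set ℕ}
    (h : ∀ n, a i < n → n ≤ b i → n ∈ E → n ∈ F) : dn a b X i E ≤ dn a b X i F := by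
  unfold dn
  apply div_le_div_of_nonneg_right _ (hX i).le
  have : (Ioc (a i) (b i) ∩ E).ncard ≤ (Ioc (a i) (b i) ∩ F).ncard :=
    Set.ncard_le_ncard (fun n hn => ⟨hn.1, h n hn.1.1 hn.1.2 hn.2⟩) (fin_blk i F)
  exact_mod_cast this

lemma dn_union (hX : ∀ i, 0 < X i) (i : ℕ) (E F : Set ℕ) :
    dn a b X i (E ∪ F) ≤ dn a b X i E + dn a b X i F := by
  unfold dn
  rw [← add_div]
  apply div_le_div_of_nonneg_right _ (hX i).le
  rw [inter_union_distrib_left]
  have := Set.ncard_union_le (Ioc (a i) (b i) ∩ E) (Ioc (a i) (b i) ∩ F)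
  exact_mod_cast this

lemma dn_empty (a b : ℕ → ℕ) (X : ℕ → ℝ) (i : ℕ) : dn a b X i ∅ = 0 := by
  unfold dn
  simp

lemma dn_biUnion (hX : ∀ i, 0 < X i) (i : ℕ) {ι : Type*} (s : Finset ι)
    (E : ι → Set ℕ) : dn a b X i (⋃ j ∈ s, E j) ≤ ∑ j ∈ s, dn a b X i (E j) := by
  classical
  induction s using Finset.induction_on with
  | empty => simp [dn_empty]
  | insert j s hj ih =>
    rw [Finset.set_biUnion_insert, Finset.sum_insert hj]
    exact (dn_union hX i _ _).trans (add_le_add le_rfl ih)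

lemma dn_shift (hX : ∀ i, 0 < X i) (i k : ℕ) (E : Set ℕ) :
    dn a b X i {n | n + k ∈ E} ≤ dn a b X i E + k / X i := by
  unfold dn
  rw [← add_div]
  apply div_le_div_of_nonneg_right _ (hX i).le
  have h1 : (fun n => n + k) '' (Ioc (a i) (b i) ∩ {n | n + k ∈ E}) ⊆
      (Ioc (a i) (b i) ∩ E) ∪ Ioc (b i) (b i + k) := by
    rintro _ ⟨n, ⟨⟨h1, h2⟩, h3⟩, rfl⟩
    have h3 : n + k ∈ E := h3
    rcases le_or_gt (n + k) (b i) with h | h
    · left
      exact ⟨⟨by dsimp only; omega, h⟩, h3⟩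
    · right
      exact ⟨h, by dsimp only; omega⟩
  have h2 := Set.ncard_le_ncard h1 ((fin_blk i E).union (Set.finite_Ioc _ _))
  rw [Set.ncard_image_of_injective _ (add_left_injective k)] at h2
  have h3 := h2.trans (Set.ncard_union_le _ _)
  have h4 : (Ioc (b i) (b i + k)).ncard = k := by
    rw [← Finset.coe_Ioc, Set.ncard_coe_finset, Nat.card_Ioc]
    omega
  rw [h4] at h3
  exact_mod_cast h3

/-- `f` is null: it tends to `0` in measure -/
def INull (a b : ℕ → ℕ) (X : ℕ → ℝ) (f : ℕ → ℕ → ℝ) : Prop :=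
  ∀ η : ℝ, 0 < η → ∀ ε : ℝ, 0 < ε → ∀ᶠ i in atTop, dn a b X i {n | η ≤ |f i n|} ≤ ε

/-- `f` is tight -/
def ITight (a b : ℕ → ℕ) (X : ℕ → ℝ) (f : ℕ → ℕ → ℝ) : Prop :=
  ∀ ε : ℝ, 0 < ε → ∃ K : ℝ, 0 < K ∧ ∀ᶠ i in atTop, dn a b X i {n | K ≤ |f i n|} ≤ ε

lemma INull.add (hX : ∀ i, 0 < X i) {f g : ℕ → ℕ → ℝ} (hf : INull a b X f) (hg : INull a b X g) :
    INull a b X (fun i n => f i n + g i n) := by
  intro η hη ε hε
  filter_upwards [hf (η / 2) (half_pos hη) (ε / 2) (half_pos hε),
    hg (η / 2) (half_pos hη) (ε / 2) (half_pos hε)] with i h1 h2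
  refine (dn_mono hX i (F := {n | η / 2 ≤ |f i n|} ∪ {n | η / 2 ≤ |g i n|})
    fun n _ _ hn => ?_).trans ((dn_union hX i _ _).trans (by linarith))
  have hn : η ≤ |f i n + g i n| := hn
  by_contra hcon
  rw [mem_union, not_or] at hcon
  have a1 : |f i n| < η / 2 := not_le.mp hcon.1
  have a2 : |g i n| < η / 2 := not_le.mp hcon.2
  have := abs_add_le (f i n) (g i n)
  linarith

lemma INull.const_mul (hX : ∀ i, 0 < X i) {f : ℕ → ℕ → ℝ} (hf : INull a b X f) (c : ℝ) :
    INull a b X (fun i n => c * f i n) := by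
  intro η hη ε hε
  have hc : 0 < |c| + 1 := by positivity
  filter_upwards [hf (η / (|c| + 1)) (div_pos hη hc) ε hε] with i h1
  refine (dn_mono hX i fun n _ _ hn => ?_).trans h1
  have hn : η ≤ |c * f i n| := hn
  show η / (|c| + 1) ≤ |f i n|
  rw [div_le_iff₀ hc]
  rw [abs_mul] at hn
  nlinarith [abs_nonneg (f i n), abs_nonneg c]

lemma shift_ev (hX : ∀ i, 0 < X i) (hXt : Tendsto X atTop atTop) (k : ℕ) {δ : ℝ} (hδ : 0 < δ) :
    ∀ᶠ i in atTop, ∀ E : Set ℕ, dn a b X i {n | n + k ∈ E} ≤ dn a b X i E + δ := by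
  filter_upwards [hXt.eventually_ge_atTop (k / δ)] with i hi E
  refine (dn_shift hX i k E).trans ?_
  have : (k : ℝ) / X i ≤ δ := by
    rw [div_le_iff₀ (hX i)]
    rw [div_le_iff₀ hδ] at hi
    linarith
  linarith

lemma INull.shift (hX : ∀ i, 0 < X i) (hXt : Tendsto X atTop atTop) {f : ℕ → ℕ → ℝ}
    (hf : INull a b X f) (k : ℕ) : INull a b X (fun i n => f i (n + k)) := by
  intro η hη ε hε
  filter_upwards [hf η hη (ε / 2) (half_pos hε), shift_ev (a := a) (b := b) hX hXt k (half_pos hε)]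
    with i h1 h2
  have := h2 {n | η ≤ |f i n|}
  refine le_trans (le_trans (le_of_eq rfl) this) (by linarith)

lemma INull.zero (hX : ∀ i, 0 < X i) : INull a b X (fun _ _ => 0) := by
  intro η hη ε hε
  refine Filter.Eventually.of_forall fun i => ?_
  refine (dn_mono hX i (F := ∅) fun n _ _ hn => ?_).trans (by rw [dn_empty]; exact hε.le)
  have hn : η ≤ |(0 : ℝ)| := hn
  rw [abs_zero] at hn
  linarith

lemma INull.sum (hX : ∀ i, 0 < X i) {ι : Type*} (s : Finset ι) {f : ι → ℕ → ℕ → ℝ}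
    (hf : ∀ j ∈ s, INull a b X (f j)) : INull a b X (fun i n => ∑ j ∈ s, f j i n) := by
  classical
  induction s using Finset.induction_on with
  | empty => simpa using INull.zero hX
  | insert j s hj ih =>
    have h1 := (hf j (Finset.mem_insert_self _ _)).add hX
      (ih fun j hj => hf j (Finset.mem_insert_of_mem hj))
    refine cast (congrArg _ ?_) h1
    funext i n
    rw [Finset.sum_insert hj]

lemma INull.act (hX : ∀ i, 0 < X i) (hXt : Tendsto X atTop atTop) {f : ℕ → ℕ → ℝ}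
    (hf : INull a b X f) (p : ℝ[X]) : INull a b X (fun i => act p (f i)) := by
  have h1 := INull.sum hX p.support (f := fun j i n => p.coeff j * f i (n + j))
    fun j _ => (hf.shift hX hXt j).const_mul hX _
  refine cast (congrArg _ ?_) h1
  funext i n
  rw [act_apply]

lemma ITight.add (hX : ∀ i, 0 < X i) {f g : ℕ → ℕ → ℝ} (hf : ITight a b X f)
    (hg : ITight a b X g) : ITight a b X (fun i n => f i n + g i n) := by
  intro ε hε
  obtain ⟨K1, hK1, h1⟩ := hf (ε / 2) (half_pos hε)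
  obtain ⟨K2, hK2, h2⟩ := hg (ε / 2) (half_pos hε)
  refine ⟨K1 + K2, by positivity, ?_⟩
  filter_upwards [h1, h2] with i h3 h4
  refine (dn_mono hX i (F := {n | K1 ≤ |f i n|} ∪ {n | K2 ≤ |g i n|})
    fun n _ _ hn => ?_).trans ((dn_union hX i _ _).trans (by linarith))
  have hn : K1 + K2 ≤ |f i n + g i n| := hn
  by_contra hcon
  rw [mem_union, not_or] at hcon
  have a1 : |f i n| < K1 := not_le.mp hcon.1
  have a2 : |g i n| < K2 := not_le.mp hcon.2
  have := abs_add_le (f i n) (g i n)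
  linarith

lemma ITight.const_mul (hX : ∀ i, 0 < X i) {f : ℕ → ℕ → ℝ} (hf : ITight a b X f) (c : ℝ) :
    ITight a b X (fun i n => c * f i n) := by
  intro ε hε
  obtain ⟨K1, hK1, h1⟩ := hf ε hε
  refine ⟨(|c| + 1) * K1, by positivity, ?_⟩
  filter_upwards [h1] with i h3
  refine (dn_mono hX i fun n _ _ hn => ?_).trans h3
  have hn : (|c| + 1) * K1 ≤ |c * f i n| := hn
  show K1 ≤ |f i n|
  rw [abs_mul] at hn
  by_contra hcon
  push Not at hcon
  have : |c| * |f i n| ≤ |c| * K1 := by gcongr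
  nlinarith [abs_nonneg c]

lemma ITight.shift (hX : ∀ i, 0 < X i) (hXt : Tendsto X atTop atTop) {f : ℕ → ℕ → ℝ}
    (hf : ITight a b X f) (k : ℕ) : ITight a b X (fun i n => f i (n + k)) := by
  intro ε hε
  obtain ⟨K, hK, h⟩ := hf (ε / 2) (half_pos hε)
  refine ⟨K, hK, ?_⟩
  filter_upwards [h, shift_ev (a := a) (b := b) hX hXt k (half_pos hε)] with i h1 h2
  have := h2 {n | K ≤ |f i n|}
  refine le_trans (le_trans (le_of_eq rfl) this) (by linarith)

lemma ITight.zero (hX : ∀ i, 0 < X i) : ITight a b X (fun _ _ => 0) := by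
  intro ε hε
  refine ⟨1, one_pos, Filter.Eventually.of_forall fun i => ?_⟩
  refine (dn_mono hX i (F := ∅) fun n _ _ hn => ?_).trans (by rw [dn_empty]; exact hε.le)
  have hn : (1 : ℝ) ≤ |(0 : ℝ)| := hn
  rw [abs_zero] at hn
  linarith

lemma ITight.one (hX : ∀ i, 0 < X i) : ITight a b X (fun _ _ => 1) := by
  intro ε hε
  refine ⟨2, by norm_num, Filter.Eventually.of_forall fun i => ?_⟩
  refine (dn_mono hX i (F := ∅) fun n _ _ hn => ?_).trans (by rw [dn_empty]; exact hε.le)
  have hn : (2 : ℝ) ≤ |(1 : ℝ)| := hn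
  rw [abs_one] at hn
  norm_num at hn

lemma ITight.sum (hX : ∀ i, 0 < X i) {ι : Type*} (s : Finset ι) {f : ι → ℕ → ℕ → ℝ}
    (hf : ∀ j ∈ s, ITight a b X (f j)) : ITight a b X (fun i n => ∑ j ∈ s, f j i n) := by
  classical
  induction s using Finset.induction_on with
  | empty => simpa using ITight.zero hX
  | insert j s hj ih =>
    have h1 := (hf j (Finset.mem_insert_self _ _)).add hX
      (ih fun j hj => hf j (Finset.mem_insert_of_mem hj))
    refine cast (congrArg _ ?_) h1
    funext i n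
    rw [Finset.sum_insert hj]

lemma ITight.act (hX : ∀ i, 0 < X i) (hXt : Tendsto X atTop atTop) {f : ℕ → ℕ → ℝ}
    (hf : ITight a b X f) (p : ℝ[X]) : ITight a b X (fun i => act p (f i)) := by
  have h1 := ITight.sum hX p.support (f := fun j i n => p.coeff j * f i (n + j))
    fun j _ => (hf.shift hX hXt j).const_mul hX _
  refine cast (congrArg _ ?_) h1
  funext i n
  rw [act_apply]

lemma ITight.null_mul (hX : ∀ i, 0 < X i) {f : ℕ → ℕ → ℝ} (hf : ITight a b X f) {τ : ℕ → ℝ}
    (hτ : Tendsto τ atTop (𝓝 0)) : INull a b X (fun i n => τ i * f i n) := by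
  intro η hη ε hε
  obtain ⟨K, hK, h1⟩ := hf ε hε
  have h2 : ∀ᶠ i in atTop, |τ i| < η / K := by
    have h3 := hτ.abs
    rw [abs_zero] at h3
    exact h3.eventually_lt_const (by positivity)
  filter_upwards [h1, h2] with i a1 b1
  refine (dn_mono hX i fun n _ _ hn => ?_).trans a1
  have hn : η ≤ |τ i * f i n| := hn
  show K ≤ |f i n|
  by_contra hcon
  push Not at hcon
  rw [abs_mul] at hn
  have h3 : |τ i| * |f i n| ≤ |τ i| * K := mul_le_mul_of_nonneg_left hcon.le (abs_nonneg _)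
  have h4 : |τ i| * K < η := by rwa [lt_div_iff₀ hK] at b1
  linarith

/-- **reduction**: if `u = dif v` with `v` tight and `dif u` null, then `u` is null -/
theorem reduction (hX : ∀ i, 0 < X i) (hXt : Tendsto X atTop atTop) {u v : ℕ → ℕ → ℝ}
    (huv : ∀ i, u i = dif (v i)) (hv : ITight a b X v) (hu : INull a b X (fun i => dif (u i))) :
    INull a b X u := by
  intro η hη ε hε
  obtain ⟨K, hK, h1⟩ := hv (ε / 4) (by positivity)
  obtain ⟨m, hm⟩ : ∃ m : ℕ, 4 * K / η + 1 ≤ m := ⟨_, Nat.le_ceil _⟩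
  have hm0 : (0 : ℝ) < m := by
    have : 0 < 4 * K / η := by positivity
    linarith
  have hmη : 4 * K ≤ m * η := by
    have h2 : 4 * K / η ≤ m := by linarith
    rwa [div_le_iff₀ hη] at h2
  have h2 : ∀ j ∈ Finset.range m, ∀ᶠ i in atTop,
      dn a b X i {n | η / (2 * m) ≤ |dif (u i) (n + j)|} ≤ ε / (4 * m) := fun j _ =>
    (hu.shift hX hXt j) _ (by positivity) _ (by positivity)
  rw [← Filter.eventually_all_finset] at h2
  filter_upwards [h1, h2, shift_ev (a := a) (b := b) hX hXt m (by positivity : 0 < ε / 8)]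
    with i h3 h5 hs
  have h4 : dn a b X i {n | K ≤ |v i (n + m)|} ≤ ε / 4 + ε / 8 := by
    have := hs {n | K ≤ |v i n|}
    refine le_trans (le_trans (le_of_eq rfl) this) (by linarith)
  refine (dn_mono hX i (F := ({n | K ≤ |v i n|} ∪ {n | K ≤ |v i (n + m)|}) ∪
    ⋃ j ∈ Finset.range m, {n | η / (2 * m) ≤ |dif (u i) (n + j)|})
    fun n _ _ hn => ?_).trans ?_
  · have hn : η ≤ |u i n| := hn
    by_contra hcon
    rw [mem_union, mem_union, not_or, not_or] at hcon
    obtain ⟨⟨c1, c2⟩, c3⟩ := hcon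
    have c1 : |v i n| < K := not_le.mp c1
    have c2 : |v i (n + m)| < K := not_le.mp c2
    have c4 : ∀ j < m, |dif (u i) (n + j)| ≤ η / (2 * m) := by
      intro j hj
      by_contra hlt
      push Not at hlt
      apply c3
      simp only [mem_iUnion]
      exact ⟨j, Finset.mem_range.mpr hj, hlt.le⟩
    have c5 := run (by positivity : 0 ≤ η / (2 * m)) c4
    have c6 : (m : ℝ) * (η / (2 * m)) = η / 2 := by field_simp
    rw [c6] at c5
    have c7 := sum_dif (v i) n m
    rw [← huv i] at c7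
    have c8 : |(∑ j ∈ Finset.range m, u i (n + j)) - m * u i n| ≤ m * (η / 2) := by
      have e1 : (∑ j ∈ Finset.range m, u i (n + j)) - m * u i n =
          ∑ j ∈ Finset.range m, (u i (n + j) - u i n) := by
        rw [Finset.sum_sub_distrib, Finset.sum_const, Finset.card_range, nsmul_eq_mul]
      rw [e1]
      refine (Finset.abs_sum_le_sum_abs _ _).trans ?_
      calc ∑ j ∈ Finset.range m, |u i (n + j) - u i n| ≤
          ∑ j ∈ Finset.range m, (η / 2) := Finset.sum_le_sum fun j hj =>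
            c5 j (Finset.mem_range.mp hj).le
        _ = m * (η / 2) := by rw [Finset.sum_const, Finset.card_range, nsmul_eq_mul]
    rw [c7] at c8
    obtain ⟨d1, d2⟩ := abs_lt.mp c1
    obtain ⟨d3, d4⟩ := abs_lt.mp c2
    obtain ⟨d5, d6⟩ := abs_le.mp c8
    have c10 : (m : ℝ) * η ≤ |(m : ℝ) * u i n| := by
      rw [abs_mul, abs_of_pos hm0]
      exact mul_le_mul_of_nonneg_left hn hm0.le
    have c11 : |(m : ℝ) * u i n| < 2 * K + m * (η / 2) := by
      rw [abs_lt]
      constructor <;> linarith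
    linarith
  · refine (dn_union hX i _ _).trans ?_
    have e1 := dn_union (a := a) (b := b) hX i {n | K ≤ |v i n|} {n | K ≤ |v i (n + m)|}
    have e2 := (dn_biUnion (a := a) (b := b) hX i (Finset.range m)
      (fun j => {n | η / (2 * m) ≤ |dif (u i) (n + j)|})).trans
      (Finset.sum_le_sum h5)
    rw [Finset.sum_const, Finset.card_range, nsmul_eq_mul] at e2
    have e3 : (m : ℝ) * (ε / (4 * m)) = ε / 4 := by field_simp
    rw [e3] at e2
    linarith

/-- **structure of the ordinates under a linear relation between consecutive gaps** -/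
theorem structure_thm (hX : ∀ i, 0 < X i) (hXt : Tendsto X atTop atTop) {y : ℕ → ℕ → ℝ}
    (hy : ITight a b X (fun i => dif (y i)))
    {c : ℝ[X]} (hc : c ≠ 0) (hrel : INull a b X (fun i => act c (dif (y i)))) :
    ∃ P V : ℝ[X], (∀ y : ℕ → ℝ, ∀ n, act P y n = y n - act V (dif y) n) ∧
      INull a b X (fun i => dif (dif (act P (y i)))) := by
  obtain ⟨s, P, V, W, h1, h2⟩ := decomp c hc
  refine ⟨P, V, h1, ?_⟩
  have key : ∀ j : ℕ, j ≤ s → INull a b X (fun i => act ((Polynomial.X - 1) ^ (j + 2)) (act P (y i))) →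
      INull a b X (fun i => act ((Polynomial.X - 1) ^ 2) (act P (y i))) := by
    intro j
    induction j with
    | zero => intro _ h; exact h
    | succ j ih =>
      intro hj h
      apply ih (by omega)
      refine reduction hX hXt (v := fun i => act ((Polynomial.X - 1) ^ j * P) (dif (y i))) (fun i => ?_)
        (hy.act hX hXt _) ?_
      · rw [← act_X_sub_one (y i), ← act_X_sub_one, ← act_mul, ← act_mul, ← act_mul]
        congr 1
        ring
      · refine cast (congrArg _ ?_) h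
        funext i
        rw [← act_X_sub_one, ← act_mul, ← act_mul, ← act_mul]
        congr 1
        ring
  have h3 : INull a b X (fun i => act ((Polynomial.X - 1) ^ (s + 2)) (act P (y i))) := by
    have h4 := hrel.act hX hXt W
    refine cast (congrArg _ ?_) h4
    funext i
    rw [h2]
  have h5 := key s le_rfl h3
  refine cast (congrArg _ ?_) h5
  funext i
  rw [pow_two, act_mul, act_X_sub_one, act_X_sub_one]

end Pool.Agent.Q173.NL
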