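import Pool.Agent.Q173.NL.Contra

/-! # The spacings are not the increments of a sequence of tight discrepancy -/

set_option autoImplicit false

open Filter Topology Set

namespace Pool.Agent.Q173.NL

open SG (ord NZ)
open Pool.Agent.Y743.LR (act dif yv dif_yv ord_step dif_nonneg ord_tendsto)

/-- the unfolded spacing -/
noncomputable def del (n : ℕ) : ℝ :=
  (ord (n + 1) * Real.log (ord (n + 1)) - ord n * Real.log (ord n)) / (2 * Real.pi)

lemma del_close {T : ℝ} (hT : 1 < T) {n : ℕ} (hn : 1 ≤ n) (h1 : T < ord n)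
    (h2 : ord (n + 1) ≤ 3 * T) : |dif (yv T) n - del n| ≤ 3 / Real.log T * dif (yv T) n := by
  have hpi := Real.pi_gt_three
  have hL : 0 < Real.log T := Real.log_pos hT
  set u := ord n with hu
  set v := ord (n + 1) with hv
  have hu0 : 0 < u := by linarith
  have huv : u ≤ v := ord_step hn
  have hv0 : 0 < v := by linarith
  have a1 : Real.log T ≤ Real.log u := Real.log_le_log (by linarith) h1.le
  have a2 : Real.log u ≤ Real.log v := Real.log_le_log hu0 huv
  have a3 : Real.log v ≤ Real.log T + 2 := by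
    have : Real.log v ≤ Real.log (3 * T) := Real.log_le_log hv0 h2
    rw [Real.log_mul (by norm_num) (by linarith)] at this
    have h3 : Real.log 3 ≤ 2 := by
      have := Real.log_le_sub_one_of_pos (show (0 : ℝ) < 3 by norm_num)
      linarith
    linarith
  have lo : (v - u) * Real.log v ≤ v * Real.log v - u * Real.log u := by
    have : u * Real.log u ≤ u * Real.log v := mul_le_mul_of_nonneg_left a2 hu0.le
    linarith
  have hi : v * Real.log v - u * Real.log u ≤ (v - u) * (Real.log v + 1) := by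
    have b1 : Real.log v - Real.log u = Real.log (v / u) := (Real.log_div hv0.ne' hu0.ne').symm
    have b2 : Real.log (v / u) ≤ v / u - 1 := Real.log_le_sub_one_of_pos (div_pos hv0 hu0)
    have b3 : u * (Real.log v - Real.log u) ≤ u * (v / u - 1) := by
      rw [b1]; exact mul_le_mul_of_nonneg_left b2 hu0.le
    have b4 : u * (v / u - 1) = v - u := by field_simp
    linarith
  have g0 : 0 ≤ v - u := by linarith
  have lo2 : (v - u) * Real.log T ≤ (v - u) * Real.log v :=
    mul_le_mul_of_nonneg_left (by linarith) g0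
  have hi2 : (v - u) * (Real.log v + 1) ≤ (v - u) * (Real.log T + 3) :=
    mul_le_mul_of_nonneg_left (by linarith) g0
  have e1 : dif (yv T) n - del n =
      ((v - u) * Real.log T - (v * Real.log v - u * Real.log u)) / (2 * Real.pi) := by
    rw [dif_yv]
    unfold del
    rw [← hu, ← hv]
    field_simp
  have e2 : 3 / Real.log T * dif (yv T) n = 3 * (v - u) / (2 * Real.pi) := by
    rw [dif_yv, ← hu, ← hv]
    field_simp
  rw [e1, e2, abs_div, abs_of_pos (by positivity : (0 : ℝ) < 2 * Real.pi)]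
  apply div_le_div_of_nonneg_right _ (by positivity)
  rw [abs_le]
  constructor <;> linarith

theorem disp (K : ℝ → ℝ) : ∃ ε : ℝ, 0 < ε ∧ ∀ᶠ N : ℕ in atTop, ∀ (b : ℝ) (u : ℕ → ℝ),
    (∀ η : ℝ, 0 < η → ({n : ℕ | 1 ≤ n ∧ n ≤ N ∧ K η < |u n|}.ncard : ℝ) ≤ η * N) →
    ε * N ≤ ({n : ℕ | 1 ≤ n ∧ n ≤ N ∧ ε ≤ |del n - b - (u (n + 1) - u n)|}.ncard : ℝ) := by
  by_contra hcon
  push Not at hcon
  obtain ⟨T1, h10, h1⟩ := NZ_asymp 1 one_pos
  obtain ⟨N0, hN0⟩ := (ord_tendsto.eventually_ge_atTop (6 * max T1 10)).exists_forall_of_atTop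
  have key : ∀ i : ℕ, ∃ N : ℕ, max i N0 ≤ N ∧ ∃ (b : ℝ) (u : ℕ → ℝ),
      (∀ η : ℝ, 0 < η → ({n : ℕ | 1 ≤ n ∧ n ≤ N ∧ K η < |u n|}.ncard : ℝ) ≤ η * N) ∧
      ({n : ℕ | 1 ≤ n ∧ n ≤ N ∧ 1 / ((i : ℝ) + 1) ≤
        |del n - b - (u (n + 1) - u n)|}.ncard : ℝ) < 1 / ((i : ℝ) + 1) * N := by
    intro i
    obtain ⟨N, h1, h2⟩ := (hcon (1 / ((i : ℝ) + 1)) (by positivity)).forall_exists_of_atTop
      (max i N0)
    exact ⟨N, h1, h2⟩
  choose N hN b u hu hb using key
  set T : ℕ → ℝ := fun i => ord (N i) / 6 with hT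
  have hNt : Tendsto N atTop atTop :=
    tendsto_atTop_mono (fun i => (le_max_left _ _).trans (hN i)) tendsto_id
  have hTT : ∀ i, max T1 10 ≤ T i := by
    intro i
    simp only [hT]
    rw [le_div_iff₀ (by norm_num)]
    have := hN0 (N i) ((le_max_right _ _).trans (hN i))
    linarith
  have hT10 : ∀ i, 10 ≤ T i := fun i => (le_max_right _ _).trans (hTT i)
  have hT1 : ∀ i, T1 ≤ T i := fun i => (le_max_left _ _).trans (hTT i)
  have hTt : Tendsto T atTop atTop := (ord_tendsto.comp hNt).atTop_div_const (by norm_num)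
  have hNT : ∀ i, ord (N i) = 6 * T i := fun i => by
    simp only [hT]; ring
  have hX : ∀ i, 0 < XX (T i) := fun i => XX_pos (by linarith [hT10 i])
  have hXt := XX_tendsto hTt
  have hNpos : ∀ i, 1 ≤ N i := by
    intro i
    by_contra hcon
    have h0 : N i = 0 := by omega
    have h1 := hNT i
    rw [h0] at h1
    have h2 : ord 0 = 0 := by
      unfold SG.ord
      have : {t : ℝ | 0 ≤ NZ t} = univ := by
        ext t
        simp
      rw [this]
      exact Real.sInf_univ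
    rw [h2] at h1
    have := hT10 i
    linarith
  have hN2 : ∀ i, NZ (2 * T i) + 1 ≤ N i := by
    intro i
    by_contra hcon
    have h3 : N i ≤ NZ (2 * T i) := by omega
    have h4 := (SG.ord_le_iff (hNpos i) _).mpr h3
    rw [hNT i] at h4
    have := hT10 i
    linarith
  have hNC : ∀ i, (N i : ℝ) ≤ 24 * XX (T i) := by
    intro i
    have h2 : N i ≤ NZ (6 * T i) := (SG.ord_le_iff (hNpos i) _).mp (hNT i).le
    have h3 := (h1 (6 * T i) (by linarith [hT1 i, hT10 i])).2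
    have h4 := XX_six (show 6 ≤ T i by linarith [hT10 i])
    have h5 : (N i : ℝ) ≤ NZ (6 * T i) := by exact_mod_cast h2
    linarith
  -- the transfer of the densities
  have htr : ∀ (i k : ℕ), k ≤ 1 → ∀ (P : ℕ → Prop) (A : ℝ), 0 ≤ A →
      ({n : ℕ | 1 ≤ n ∧ n ≤ N i ∧ P n}.ncard : ℝ) ≤ A * N i →
      dn (fun i => NZ (T i)) (fun i => NZ (2 * T i)) (fun i => XX (T i)) i {n | P (n + k)} ≤
        24 * A := by
    intro i k hk P A hA hP
    unfold dn
    rw [div_le_iff₀ (hX i)]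
    have h2 : (Ioc (NZ (T i)) (NZ (2 * T i)) ∩ {n | P (n + k)}).ncard ≤
        {n : ℕ | 1 ≤ n ∧ n ≤ N i ∧ P n}.ncard := by
      have hfin : {n : ℕ | 1 ≤ n ∧ n ≤ N i ∧ P n}.Finite :=
        (Set.finite_Iic (N i)).subset fun n hn => hn.2.1
      rw [← Set.ncard_image_of_injective (Ioc (NZ (T i)) (NZ (2 * T i)) ∩ {n | P (n + k)})
        (add_left_injective k)]
      apply Set.ncard_le_ncard _ hfin
      rintro _ ⟨n, ⟨⟨a1, a2⟩, a3⟩, rfl⟩
      have := hN2 i
      exact ⟨by dsimp only; omega, by dsimp only; omega, a3⟩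
    calc ((Ioc (NZ (T i)) (NZ (2 * T i)) ∩ {n | P (n + k)}).ncard : ℝ) ≤
          ({n : ℕ | 1 ≤ n ∧ n ≤ N i ∧ P n}.ncard : ℝ) := by exact_mod_cast h2
      _ ≤ A * N i := hP
      _ ≤ A * (24 * XX (T i)) := mul_le_mul_of_nonneg_left (hNC i) hA
      _ = 24 * A * XX (T i) := by ring
  have hxt : ITight (fun i => NZ (T i)) (fun i => NZ (2 * T i)) (fun i => XX (T i)) u := by
    intro ε hε
    refine ⟨max (K (ε / 24)) 0 + 1, by positivity, Eventually.of_forall fun i => ?_⟩
    have h2 := htr i 0 (by norm_num) (fun n => K (ε / 24) < |u i n|) (ε / 24) (by positivity)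
      (hu i (ε / 24) (by positivity))
    refine (dn_mono hX i fun n _ _ hn => ?_).trans (h2.trans (by linarith))
    have hn : max (K (ε / 24)) 0 + 1 ≤ |u i n| := hn
    show K (ε / 24) < |u i (n + 0)|
    rw [add_zero]
    have := le_max_left (K (ε / 24)) 0
    linarith
  have htight := gap_tight hTt hT10
  have hlog : Tendsto (fun i => 3 / Real.log (T i)) atTop (𝓝 0) :=
    (Real.tendsto_log_atTop.comp hTt).const_div_atTop 3
  have hw : INull (fun i => NZ (T i)) (fun i => NZ (2 * T i)) (fun i => XX (T i))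
      (fun i n => 3 / Real.log (T i) * dif (yv (T i)) n) := ITight.null_mul hX htight hlog
  have hw1 := hw.shift hX hXt 1
  obtain ⟨T4, h4⟩ := far 2
  have hinv : Tendsto (fun i : ℕ => 1 / ((i : ℝ) + 1)) atTop (𝓝 0) :=
    tendsto_one_div_add_atTop_nhds_zero_nat
  refine core_abs (spread hTt hT10) hxt ?_
  intro η hη δ hδ
  filter_upwards [hinv.eventually_lt_const (by positivity : 0 < η / 4),
    hinv.eventually_lt_const (by positivity : 0 < δ / 96),
    hw (η / 4) (by positivity) (δ / 4) (by positivity),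
    hw1 (η / 4) (by positivity) (δ / 4) (by positivity), hTt.eventually_ge_atTop T4]
    with i i1 i2 i3 i4 i5
  have hi0 : 0 ≤ 1 / ((i : ℝ) + 1) := by positivity
  have n1 := htr i 0 (by norm_num) (fun n => 1 / ((i : ℝ) + 1) ≤
    |del n - b i - (u i (n + 1) - u i n)|) (1 / ((i : ℝ) + 1)) hi0 (hb i).le
  have n2 := htr i 1 le_rfl (fun n => 1 / ((i : ℝ) + 1) ≤
    |del n - b i - (u i (n + 1) - u i n)|) (1 / ((i : ℝ) + 1)) hi0 (hb i).le
  set F1 : Set ℕ := {n | 1 / ((i : ℝ) + 1) ≤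
    |del (n + 0) - b i - (u i (n + 0 + 1) - u i (n + 0))|} with hF1
  set F2 : Set ℕ := {n | 1 / ((i : ℝ) + 1) ≤
    |del (n + 1) - b i - (u i (n + 1 + 1) - u i (n + 1))|} with hF2
  set F3 : Set ℕ := {n | η / 4 ≤ |3 / Real.log (T i) * dif (yv (T i)) n|} with hF3
  set F4 : Set ℕ := {n | η / 4 ≤ |3 / Real.log (T i) * dif (yv (T i)) (n + 1)|} with hF4
  refine (dn_mono hX i (F := (F1 ∪ F2) ∪ (F3 ∪ F4)) fun n hn1 hn2 hn => ?_).trans ?_
  · by_contra hcon
    rw [mem_union, mem_union, mem_union, not_or, not_or, not_or] at hcon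
    obtain ⟨⟨c1, c2⟩, c3, c4⟩ := hcon
    have c1 : |del n - b i - (u i (n + 1) - u i n)| < 1 / ((i : ℝ) + 1) := not_le.mp c1
    have c2 : |del (n + 1) - b i - (u i (n + 1 + 1) - u i (n + 1))| < 1 / ((i : ℝ) + 1) :=
      not_le.mp c2
    have c3 : |3 / Real.log (T i) * dif (yv (T i)) n| < η / 4 := not_le.mp c3
    have c4 : |3 / Real.log (T i) * dif (yv (T i)) (n + 1)| < η / 4 := not_le.mp c4
    have hn : η ≤ |dif (dif (fun n => yv (T i) n - u i n)) n| := hn
    have a1 : T i < ord n := by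
      by_contra h
      push Not at h
      have := (SG.ord_le_iff (by omega) _).mp h
      omega
    have a2 : ord (n + 2) ≤ 3 * T i := by
      have := h4 (T i) i5
      exact (SG.ord_le_iff (by omega) _).mpr (by omega)
    have hn0 : 1 ≤ n := by omega
    have hT1' : 1 < T i := by linarith [hT10 i]
    have a3 : ord n ≤ ord (n + 1) := ord_step hn0
    have a4 : ord (n + 1) ≤ ord (n + 2) := ord_step (by omega)
    have d1 := del_close hT1' hn0 a1 (by linarith)
    have d2 := del_close hT1' (show 1 ≤ n + 1 by omega) (by linarith) a2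
    have e1 : dif (dif (fun n => yv (T i) n - u i n)) n =
        ((dif (yv (T i)) (n + 1) - del (n + 1)) +
          (del (n + 1) - b i - (u i (n + 1 + 1) - u i (n + 1)))) -
        ((dif (yv (T i)) n - del n) + (del n - b i - (u i (n + 1) - u i n))) := by
      unfold dif
      ring
    rw [e1] at hn
    have d3 := le_abs_self (3 / Real.log (T i) * dif (yv (T i)) n)
    have d4 := le_abs_self (3 / Real.log (T i) * dif (yv (T i)) (n + 1))
    have hlt : |((dif (yv (T i)) (n + 1) - del (n + 1)) +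
          (del (n + 1) - b i - (u i (n + 1 + 1) - u i (n + 1)))) -
        ((dif (yv (T i)) n - del n) + (del n - b i - (u i (n + 1) - u i n)))| < η := by
      obtain ⟨q1, q2⟩ := abs_lt.mp c1
      obtain ⟨q3, q4⟩ := abs_lt.mp c2
      obtain ⟨q5, q6⟩ := abs_le.mp d1
      obtain ⟨q7, q8⟩ := abs_le.mp d2
      rw [abs_lt]
      constructor <;> linarith
    linarith
  · have e1 := dn_union (a := fun i => NZ (T i)) (b := fun i => NZ (2 * T i)) hX i (F1 ∪ F2)
      (F3 ∪ F4)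
    have e2 := dn_union (a := fun i => NZ (T i)) (b := fun i => NZ (2 * T i)) hX i F1 F2
    have e3 := dn_union (a := fun i => NZ (T i)) (b := fun i => NZ (2 * T i)) hX i F3 F4
    have f1 : dn (fun i => NZ (T i)) (fun i => NZ (2 * T i)) (fun i => XX (T i)) i F1 ≤
        24 * (1 / ((i : ℝ) + 1)) := n1
    have f2 : dn (fun i => NZ (T i)) (fun i => NZ (2 * T i)) (fun i => XX (T i)) i F2 ≤
        24 * (1 / ((i : ℝ) + 1)) := n2
    have f3 : dn (fun i => NZ (T i)) (fun i => NZ (2 * T i)) (fun i => XX (T i)) i F3 ≤ δ / 4 := i3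
    have f4 : dn (fun i => NZ (T i)) (fun i => NZ (2 * T i)) (fun i => XX (T i)) i F4 ≤ δ / 4 := i4
    linarith

/-- the form for sequences whose sums are close to linear -/
theorem disc (K : ℝ → ℝ) : ∃ ε : ℝ, 0 < ε ∧ ∀ᶠ N : ℕ in atTop, ∀ (a : ℕ → ℝ) (b c : ℝ),
    (∀ η : ℝ, 0 < η → ({n : ℕ | 1 ≤ n ∧ n ≤ N ∧
      K η < |∑ j ∈ Finset.Ico 1 n, a j - (b * n + c)|}.ncard : ℝ) ≤ η * N) →
    ε * N ≤ ({n : ℕ | 1 ≤ n ∧ n ≤ N ∧ ε ≤ |del n - a n|}.ncard : ℝ) := by
  obtain ⟨ε, hε, h⟩ := disp K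
  refine ⟨ε, hε, ?_⟩
  filter_upwards [h] with N hN a b c hab
  have h1 := hN b (fun n => ∑ j ∈ Finset.Ico 1 n, a j - (b * n + c)) hab
  refine h1.trans ?_
  have hfin : {n : ℕ | 1 ≤ n ∧ n ≤ N ∧ ε ≤ |del n - a n|}.Finite :=
    (Set.finite_Iic N).subset fun n hn => hn.2.1
  have : {n : ℕ | 1 ≤ n ∧ n ≤ N ∧ ε ≤ |del n - b - ((∑ j ∈ Finset.Ico 1 (n + 1), a j -
      (b * ((n + 1 : ℕ) : ℝ) + c)) - (∑ j ∈ Finset.Ico 1 n, a j - (b * n + c)))|} ⊆
      {n : ℕ | 1 ≤ n ∧ n ≤ N ∧ ε ≤ |del n - a n|} := by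
    rintro n ⟨h2, h3, h4⟩
    refine ⟨h2, h3, ?_⟩
    have e : del n - b - ((∑ j ∈ Finset.Ico 1 (n + 1), a j -
      (b * ((n + 1 : ℕ) : ℝ) + c)) - (∑ j ∈ Finset.Ico 1 n, a j - (b * n + c))) = del n - a n := by
      rw [Finset.sum_Ico_succ_top h2]
      push_cast
      ring
    rw [e] at h4
    exact h4
  exact_mod_cast Set.ncard_le_ncard this hfin

end Pool.Agent.Q173.NL
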