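import Mathlib

/-! # The polynomial `P (T + X_0, …, T + X_{k-1})` in `T` -/

set_option autoImplicit false

open MvPolynomial

namespace Pool.Agent.Q173.NL

variable {k : ℕ}

/-- `P (T + X_0, …, T + X_{k-1})` as a polynomial in `T` -/
noncomputable def sPoly (P : MvPolynomial (Fin k) ℝ) : Polynomial (MvPolynomial (Fin k) ℝ) :=
  aeval (fun j => Polynomial.X + Polynomial.C (X j)) P

lemma eval_sPoly (P : MvPolynomial (Fin k) ℝ) (x : ℝ) (g : Fin k → ℝ) :
    eval (fun j => x + g j) P = ((sPoly P).map (eval g)).eval x := by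
  unfold sPoly
  induction P using MvPolynomial.induction_on with
  | C a =>
    rw [eval_C, aeval_C]
    have : (algebraMap ℝ (Polynomial (MvPolynomial (Fin k) ℝ))) a = Polynomial.C (C a) := rfl
    rw [this, Polynomial.map_C, Polynomial.eval_C, eval_C]
  | add p q hp hq =>
    rw [map_add, map_add, Polynomial.map_add, Polynomial.eval_add, hp, hq]
  | mul_X p i h =>
    rw [map_mul, map_mul, Polynomial.map_mul, Polynomial.eval_mul, h, eval_X, aeval_X,
      Polynomial.map_add, Polynomial.map_X, Polynomial.map_C, Polynomial.eval_add,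
      Polynomial.eval_X, Polynomial.eval_C, eval_X]

/-- first order Taylor expansion at the origin -/
lemma taylor_bd (q : MvPolynomial (Fin k) ℝ) : ∃ C : ℝ, 0 ≤ C ∧ ∀ G : ℝ, 0 ≤ G → G ≤ 1 →
    ∀ g : Fin k → ℝ, (∀ j, |g j| ≤ G) →
      |eval g q - coeff 0 q - ∑ j, coeff (Finsupp.single j 1) q * g j| ≤ C * G ^ 2 := by
  classical
  induction q using MvPolynomial.induction_on with
  | C a =>
    refine ⟨0, le_rfl, fun G hG hG1 g hg => ?_⟩
    have h1 : ∀ j : Fin k, coeff (Finsupp.single j 1) (C a : MvPolynomial (Fin k) ℝ) = 0 := by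
      intro j
      rw [coeff_C, if_neg]
      intro h
      have := congrArg (fun f => f j) h
      simp at this
    simp_rw [h1]
    simp
  | add p q hp hq =>
    obtain ⟨C1, hC1, h1⟩ := hp
    obtain ⟨C2, hC2, h2⟩ := hq
    refine ⟨C1 + C2, by positivity, fun G hG hG1 g hg => ?_⟩
    have a1 := h1 G hG hG1 g hg
    have a2 := h2 G hG hG1 g hg
    have e : eval g (p + q) - coeff 0 (p + q) -
        ∑ j, coeff (Finsupp.single j 1) (p + q) * g j =
        (eval g p - coeff 0 p - ∑ j, coeff (Finsupp.single j 1) p * g j) +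
        (eval g q - coeff 0 q - ∑ j, coeff (Finsupp.single j 1) q * g j) := by
      simp_rw [coeff_add, add_mul]
      rw [map_add, Finset.sum_add_distrib]
      ring
    rw [e, add_mul]
    exact (abs_add_le _ _).trans (add_le_add a1 a2)
  | mul_X p i h =>
    obtain ⟨C1, hC1, h1⟩ := h
    set M : ℝ := ∑ j, |coeff (Finsupp.single j 1) p| with hM
    have hM0 : 0 ≤ M := Finset.sum_nonneg fun j _ => abs_nonneg _
    refine ⟨C1 + M, by positivity, fun G hG hG1 g hg => ?_⟩
    have a1 := h1 G hG hG1 g hg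
    have a2 : |∑ j, coeff (Finsupp.single j 1) p * g j| ≤ M * G := by
      rw [hM, Finset.sum_mul]
      refine (Finset.abs_sum_le_sum_abs _ _).trans (Finset.sum_le_sum fun j _ => ?_)
      rw [abs_mul]
      exact mul_le_mul_of_nonneg_left (hg j) (abs_nonneg _)
    have a3 : |eval g p - coeff 0 p| ≤ (C1 + M) * G := by
      have e : eval g p - coeff 0 p =
          (eval g p - coeff 0 p - ∑ j, coeff (Finsupp.single j 1) p * g j) +
            ∑ j, coeff (Finsupp.single j 1) p * g j := by ring
      rw [e]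
      refine (abs_add_le _ _).trans ?_
      have : C1 * G ^ 2 ≤ C1 * G := by
        apply mul_le_mul_of_nonneg_left _ hC1
        nlinarith
      linarith
    have e0 : coeff 0 (p * X i) = 0 := by
      rw [coeff_mul_X', if_neg]
      simp
    have e1 : ∀ j, coeff (Finsupp.single j 1) (p * X i) = if j = i then coeff 0 p else 0 := by
      intro j
      rw [coeff_mul_X']
      by_cases h : j = i
      · rw [if_pos h, if_pos (by rw [h]; simp), h]
        congr 1
        ext l
        simp
      · rw [if_neg h, if_neg]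
        rw [Finsupp.mem_support_iff, Finsupp.single_apply, if_neg h]
        simp
    have e2 : ∑ j, coeff (Finsupp.single j 1) (p * X i) * g j = coeff 0 p * g i := by
      simp_rw [e1]
      simp
    rw [e0, e2, map_mul, eval_X]
    have e3 : eval g p * g i - 0 - coeff 0 p * g i = (eval g p - coeff 0 p) * g i := by ring
    rw [e3, abs_mul]
    calc |eval g p - coeff 0 p| * |g i| ≤ ((C1 + M) * G) * G :=
          mul_le_mul a3 (hg i) (abs_nonneg _) (by positivity)
      _ = _ := by ring

lemma eval_bd (q : MvPolynomial (Fin k) ℝ) : ∃ C : ℝ, 0 ≤ C ∧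
    ∀ g : Fin k → ℝ, (∀ j, |g j| ≤ 1) → |eval g q| ≤ C := by
  obtain ⟨C, hC, h⟩ := taylor_bd q
  set M : ℝ := ∑ j, |coeff (Finsupp.single j 1) q| with hM
  have hM0 : 0 ≤ M := Finset.sum_nonneg fun j _ => abs_nonneg _
  refine ⟨|coeff 0 q| + M + C, by positivity, fun g hg => ?_⟩
  have a1 := h 1 zero_le_one le_rfl g hg
  have a2 : |∑ j, coeff (Finsupp.single j 1) q * g j| ≤ M := by
    rw [hM]
    refine (Finset.abs_sum_le_sum_abs _ _).trans (Finset.sum_le_sum fun j _ => ?_)
    rw [abs_mul]
    exact mul_le_of_le_one_right (abs_nonneg _) (hg j)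
  have e : eval g q = (eval g q - coeff 0 q - ∑ j, coeff (Finsupp.single j 1) q * g j) +
      coeff 0 q + ∑ j, coeff (Finsupp.single j 1) q * g j := by ring
  rw [e]
  refine (abs_add_le _ _).trans ?_
  have := abs_add_le (eval g q - coeff 0 q - ∑ j, coeff (Finsupp.single j 1) q * g j) (coeff 0 q)
  linarith

/-- the leading term in `x` -/
lemma lower (P : MvPolynomial (Fin k) ℝ) : ∃ M : ℝ, 0 ≤ M ∧ ∀ x : ℝ, 1 ≤ x →
    ∀ g : Fin k → ℝ, (∀ j, |g j| ≤ 1) →
      |eval (fun j => x + g j) P -
        x ^ (sPoly P).natDegree * eval g (sPoly P).leadingCoeff| * x ≤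
        M * x ^ (sPoly P).natDegree := by
  classical
  choose C hC h using fun i : ℕ => eval_bd ((sPoly P).coeff i)
  set a := (sPoly P).natDegree with ha
  refine ⟨∑ i ∈ Finset.range a, C i, Finset.sum_nonneg fun i _ => hC i, fun x hx g hg => ?_⟩
  have hx0 : 0 ≤ x := by linarith
  have e1 : eval (fun j => x + g j) P =
      ∑ i ∈ Finset.range (a + 1), eval g ((sPoly P).coeff i) * x ^ i := by
    rw [eval_sPoly, Polynomial.eval_eq_sum_range' (n := a + 1)]
    · refine Finset.sum_congr rfl fun i _ => ?_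
      rw [Polynomial.coeff_map]
    · exact lt_of_le_of_lt Polynomial.natDegree_map_le (Nat.lt_succ_self _)
  rw [e1, Finset.sum_range_succ]
  have e2 : (sPoly P).coeff a = (sPoly P).leadingCoeff := rfl
  rw [e2]
  have e3 : ∑ i ∈ Finset.range a, eval g ((sPoly P).coeff i) * x ^ i +
      eval g (sPoly P).leadingCoeff * x ^ a - x ^ a * eval g (sPoly P).leadingCoeff =
      ∑ i ∈ Finset.range a, eval g ((sPoly P).coeff i) * x ^ i := by ring
  rw [e3]
  calc |∑ i ∈ Finset.range a, eval g ((sPoly P).coeff i) * x ^ i| * x ≤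
      (∑ i ∈ Finset.range a, |eval g ((sPoly P).coeff i) * x ^ i|) * x :=
        mul_le_mul_of_nonneg_right (Finset.abs_sum_le_sum_abs _ _) hx0
    _ = ∑ i ∈ Finset.range a, |eval g ((sPoly P).coeff i)| * x ^ (i + 1) := by
        rw [Finset.sum_mul]
        refine Finset.sum_congr rfl fun i _ => ?_
        rw [abs_mul, abs_of_nonneg (pow_nonneg hx0 i)]
        ring
    _ ≤ ∑ i ∈ Finset.range a, C i * x ^ a := by
        refine Finset.sum_le_sum fun i hi => ?_
        rw [Finset.mem_range] at hi
        exact mul_le_mul (h i g hg) (pow_le_pow_right₀ hx (by omega)) (by positivity) (hC i)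
    _ = _ := by rw [Finset.sum_mul]

/-- the leading coefficient is invariant under translations along the diagonal -/
lemma lead_diag (P : MvPolynomial (Fin k) ℝ) (s : ℝ) :
    eval (fun _ => s) (sPoly P).leadingCoeff = coeff 0 (sPoly P).leadingCoeff := by
  set Q := sPoly P with hQ
  have h1 : Q.map (eval (fun _ => s)) = Polynomial.taylor s (Q.map (eval (fun _ => (0 : ℝ)))) := by
    apply Polynomial.funext
    intro x
    rw [Polynomial.taylor_apply, Polynomial.eval_comp, Polynomial.eval_add, Polynomial.eval_X,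
      Polynomial.eval_C, hQ, ← eval_sPoly, ← eval_sPoly]
    simp
  have h2 : (Q.map (eval (fun _ => s))).coeff Q.natDegree =
      (Polynomial.taylor s (Q.map (eval (fun _ => (0 : ℝ))))).coeff Q.natDegree := by rw [h1]
  rw [Polynomial.coeff_map] at h2
  have h3 : (Polynomial.taylor s (Q.map (eval (fun _ => (0 : ℝ))))).coeff Q.natDegree =
      (Q.map (eval (fun _ => (0 : ℝ)))).coeff Q.natDegree := by
    set R := Q.map (eval (fun _ => (0 : ℝ))) with hR
    have hd : R.natDegree ≤ Q.natDegree := Polynomial.natDegree_map_le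
    rcases hd.lt_or_eq with h | h
    · rw [Polynomial.coeff_eq_zero_of_natDegree_lt h,
        Polynomial.coeff_eq_zero_of_natDegree_lt (by rwa [Polynomial.natDegree_taylor])]
    · rw [← h, Polynomial.coeff_taylor_natDegree]
      rfl
  rw [h3, Polynomial.coeff_map] at h2
  have h4 : Q.coeff Q.natDegree = Q.leadingCoeff := rfl
  rw [h4] at h2
  rw [h2]
  have h5 : (fun _ : Fin k => (0 : ℝ)) = 0 := rfl
  rw [h5, ← constantCoeff_eq]
  exact congrFun (congrArg _ eval_zero) _

lemma lin_sum_zero (P : MvPolynomial (Fin k) ℝ) :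
    ∑ j, coeff (Finsupp.single j 1) (sPoly P).leadingCoeff = 0 := by
  obtain ⟨C, hC, h⟩ := taylor_bd (sPoly P).leadingCoeff
  set S := ∑ j, coeff (Finsupp.single j 1) (sPoly P).leadingCoeff with hS
  by_contra hne
  have hpos : 0 < |S| := abs_pos.mpr hne
  set s : ℝ := min 1 (|S| / (2 * (C + 1))) with hs
  have hs0 : 0 < s := by positivity
  have hs1 : s ≤ 1 := min_le_left _ _
  have hs2 : s * (2 * (C + 1)) ≤ |S| := by
    have : s ≤ |S| / (2 * (C + 1)) := min_le_right _ _
    rwa [le_div_iff₀ (by positivity)] at this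
  have h1 := h s hs0.le hs1 (fun _ => s) (fun _ => by rw [abs_of_pos hs0])
  rw [lead_diag, ← Finset.sum_mul, ← hS, sub_self, zero_sub, abs_neg, abs_mul,
    abs_of_pos hs0] at h1
  have h2 : |S| * s ≤ C * s * s := by
    calc |S| * s ≤ C * s ^ 2 := h1
      _ = _ := by ring
  have h3 : |S| ≤ C * s := le_of_mul_le_mul_right h2 hs0
  nlinarith

end Pool.Agent.Q173.NL
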