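import Pool.Agent.Q173.NL.Rare
import Pool.Agent.Q173.NL.Shift
import Pool.Agent.Y743.PR.Main

/-! # Polynomial relations between consecutive ordinates, unconditionally

The first theorem is adapted from `Pool.Agent.Y743.PR.Main`. -/

set_option autoImplicit false

open Filter Topology Set

namespace Pool.Agent.Q173.NL

open SG (ord NZ)
open Pool.Agent.Y743.LR (ord_tendsto ord_step)
open Pool.Agent.Y743.PR (grad lead cf cf_form cf_sum cf_low Ok point nmon big)

lemma ok_ev (k m : ℕ) (hm : 1 ≤ m) {θ ε : ℝ} (hθ0 : 0 ≤ θ) (hθ : θ < 1) (hε : 0 < ε) :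
    ∀ᶠ n : ℕ in atTop, ord (n + k) - ord n ≤ 1 * (1 + Real.log n) → Ok k m θ ε 1 n := by
  have hm0 : (1 : ℝ) ≤ m := by exact_mod_cast hm
  set θ1 : ℝ := (θ + 1) / 2 with hθ1
  set C : ℝ := 1 with hC'
  have hC : 0 < C := one_pos
  set A : ℝ := nmon k m * (3 * m ^ 2) * (2 / ε) with hA
  set B : ℝ := ε / (2 * (m * (k + 1))) with hB
  have hA0 : 0 ≤ A := by positivity
  have hB0 : 0 < B := by positivity
  have ht : Tendsto (fun n : ℕ => (n : ℝ)) atTop atTop := tendsto_natCast_atTop_atTop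
  -- growth comparisons
  have h1 : ∀ᶠ x : ℝ in atTop, A * (1 + C * (1 + Real.log x)) ^ 2 * x ^ θ ≤ B * x ^ θ1 := by
    have h2 := (isLittleO_log_rpow_rpow_atTop 2 (by rw [hθ1]; linarith : 0 < θ1 - θ)).bound
      (c := B / ((A + 1) * (1 + 2 * C) ^ 2)) (by positivity)
    filter_upwards [h2, eventually_gt_atTop 3] with x hx hx3
    have hx0 : 0 < x := by linarith
    have hl : 1 ≤ Real.log x := by
      rw [Real.le_log_iff_exp_le hx0]
      linarith [Real.exp_one_lt_d9]
    rw [Real.norm_of_nonneg (by positivity), Real.norm_of_nonneg (by positivity)] at hx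
    have e1 : Real.log x ^ (2 : ℝ) = Real.log x ^ 2 := by
      rw [← Real.rpow_natCast]
      norm_num
    rw [e1] at hx
    have e2 : (1 + C * (1 + Real.log x)) ^ 2 ≤ ((1 + 2 * C) * Real.log x) ^ 2 := by
      apply pow_le_pow_left₀ (by positivity)
      nlinarith
    have e3 : x ^ θ1 = x ^ (θ1 - θ) * x ^ θ := by
      rw [← Real.rpow_add hx0]
      norm_num
    calc A * (1 + C * (1 + Real.log x)) ^ 2 * x ^ θ ≤
        (A + 1) * ((1 + 2 * C) * Real.log x) ^ 2 * x ^ θ := by
          apply mul_le_mul_of_nonneg_right _ (by positivity)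
          exact mul_le_mul (by linarith) e2 (by positivity) (by positivity)
      _ = ((A + 1) * (1 + 2 * C) ^ 2) * (Real.log x ^ 2) * x ^ θ := by ring
      _ ≤ ((A + 1) * (1 + 2 * C) ^ 2) *
          (B / ((A + 1) * (1 + 2 * C) ^ 2) * x ^ (θ1 - θ)) * x ^ θ := by gcongr
      _ = B * x ^ θ1 := by
          rw [e3]
          field_simp
  have h3 : ∀ᶠ x : ℝ in atTop, m * (C * (1 + Real.log x)) ≤ x ^ (1 / 2 : ℝ) := by
    have h2 := (isLittleO_log_rpow_rpow_atTop 1 (by norm_num : (0 : ℝ) < 1 / 2)).bound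
      (c := 1 / (2 * m * C)) (by positivity)
    filter_upwards [h2, eventually_gt_atTop 3] with x hx hx3
    have hx0 : 0 < x := by linarith
    have hl : 1 ≤ Real.log x := by
      rw [Real.le_log_iff_exp_le hx0]
      linarith [Real.exp_one_lt_d9]
    rw [Real.rpow_one, Real.norm_of_nonneg (by positivity),
      Real.norm_of_nonneg (by positivity)] at hx
    calc m * (C * (1 + Real.log x)) ≤ m * (C * (2 * Real.log x)) := by gcongr; linarith
      _ = (2 * m * C) * Real.log x := by ring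
      _ ≤ (2 * m * C) * (1 / (2 * m * C) * x ^ (1 / 2 : ℝ)) := by gcongr
      _ = _ := by field_simp
  filter_upwards [ht.eventually h1, ht.eventually h3, eventually_ge_atTop 1,
    ord_tendsto.eventually_ge_atTop 3, big (θ := θ1) (by rw [hθ1]; linarith) (by rw [hθ1]; linarith),
    big (θ := 1 / 2) (by norm_num) (by norm_num)] with n b1 b2 b3 b4 b5 b6 hsp
  have hl : 1 ≤ Real.log (ord n) := by
    rw [Real.le_log_iff_exp_le (by linarith)]
    linarith [Real.exp_one_lt_d9]
  refine ⟨b3, b4, hsp, ?_, ?_⟩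
  · refine b2.trans (le_trans ?_ b6)
    have : 0 ≤ (n : ℝ) ^ (1 / 2 : ℝ) := by positivity
    nlinarith
  · calc nmon k m * (3 * m ^ 2 * (1 + C * (1 + Real.log n)) ^ 2) * (2 / ε * (n : ℝ) ^ θ) *
          Real.log (ord n) =
        A * (1 + C * (1 + Real.log n)) ^ 2 * (n : ℝ) ^ θ * Real.log (ord n) := by
          rw [hA]; ring
      _ ≤ B * (n : ℝ) ^ θ1 * Real.log (ord n) := by gcongr
      _ = B * ((n : ℝ) ^ θ1 * Real.log (ord n)) := by ring
      _ ≤ B * ord n := mul_le_mul_of_nonneg_left b5 hB0.le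

/-- the constant depends only on `k` -/
noncomputable def LinC (k : ℕ) (ε : ℝ) : Prop := 0 < ε ∧ ∀ᶠ N : ℕ in atTop,
    ∀ c : Fin k → ℝ, (∃ j, 1 ≤ |c j|) → ∀ b : ℝ,
      ε * N ≤ ({n : ℕ | 1 ≤ n ∧ n ≤ N ∧
        ε / Real.log (ord n) ≤ |∑ j, c j * ord (n + j) - b|}.ncard : ℝ)

/-- **polynomial relations, uniformly in the coefficients** -/
theorem poly1 (k : ℕ) {ε0 : ℝ} (hL : LinC k ε0) : ∀ m : ℕ, 1 ≤ m → ∀ θ : ℝ,
    θ < 1 → ∀ᶠ N : ℕ in atTop, ∀ P : MvPolynomial (Fin k) ℝ, P.totalDegree ≤ m → ∀ i : Fin k,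
      grad m P i ≠ 0 → (∀ s, |MvPolynomial.coeff s P| ≤ |grad m P i| * (N : ℝ) ^ θ) →
      min ε0 1 / (4 * (k + 1)) * N ≤ ({n : ℕ | 1 ≤ n ∧ n ≤ N ∧ 3 ≤ ord n ∧
        min ε0 1 / (4 * (k + 1)) / m * |grad m P i| * ord n ^ (m - 1) / Real.log (ord n) ≤
          |MvPolynomial.eval (fun j : Fin k => ord (n + j)) P|}.ncard : ℝ) := by
  obtain ⟨hε0, h0⟩ := hL
  set ε1 : ℝ := min ε0 1 with hε1
  have hε1p : 0 < ε1 := lt_min hε0 one_pos
  have hε11 : ε1 ≤ 1 := min_le_right _ _
  have hε10 : ε1 ≤ ε0 := min_le_left _ _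
  have hk0 : (0 : ℝ) ≤ k := Nat.cast_nonneg _
  intro m hm θ hθ
  set θ' : ℝ := max θ 0 with hθ'
  have hθ'0 : 0 ≤ θ' := le_max_right _ _
  have hθ'1 : θ' < 1 := max_lt hθ one_pos
  obtain ⟨n0, hn0⟩ := ((ok_ev k m hm hθ'0 hθ'1 hε1p).and
    (ord_tendsto.eventually_ge_atTop 3)).exists_forall_of_atTop
  have ht : Tendsto (fun n : ℕ => (n : ℝ)) atTop atTop := tendsto_natCast_atTop_atTop
  filter_upwards [h0, eventually_ge_atTop 1, ht.eventually_ge_atTop (2 * n0 / ε1),
    rare k one_pos (by positivity : 0 < ε1 / 4)] with N hN hN1 hN2 hN3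
  intro P hP i hi hco
  have hm1 : (1 : ℝ) ≤ m := by exact_mod_cast hm
  set A : ℝ := |grad m P i| with hA
  have hA0 : 0 < A := abs_pos.mpr hi
  have hN0 : (1 : ℝ) ≤ N := by exact_mod_cast hN1
  have hco' : ∀ s, |MvPolynomial.coeff s P| ≤ A * (N : ℝ) ^ θ' := fun s => by
    refine (hco s).trans (mul_le_mul_of_nonneg_left ?_ hA0.le)
    exact Real.rpow_le_rpow_of_exponent_le hN0 (le_max_left _ _)
  set K : ℝ := m * (k + 1) with hK
  have hK0 : 0 < K := by positivity
  obtain ⟨j0, hj0⟩ := cf_low hm P i hi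
  have h1 := hN (fun j => K / A * cf m P j) ⟨j0, by
    rw [abs_mul, abs_of_pos (by positivity : 0 < K / A), div_mul_eq_mul_div, le_div_iff₀ hA0,
      one_mul]
    exact hj0⟩ (-(K / A * lead (m - 1) P))
  set S : Set ℕ := {n : ℕ | 1 ≤ n ∧ n ≤ N ∧ ε0 / Real.log (ord n) ≤
    |∑ j : Fin k, K / A * cf m P j * ord (n + j) - -(K / A * lead (m - 1) P)|} with hS
  set S' : Set ℕ := {n : ℕ | 1 ≤ n ∧ n ≤ N ∧ 3 ≤ ord n ∧
        ε1 / (4 * (k + 1)) / m * A * ord n ^ (m - 1) / Real.log (ord n) ≤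
          |MvPolynomial.eval (fun j : Fin k => ord (n + j)) P|} with hS'
  set E : Set ℕ := {n : ℕ | 1 ≤ n ∧ n ≤ N ∧ 3 ≤ ord n ∧
      1 / Real.log (ord n) < (ord (n + k) - ord n) ^ 2} with hE
  have hfin' : S'.Finite := (Set.finite_Icc 1 N).subset fun m hm => ⟨hm.1, hm.2.1⟩
  have hfinE : E.Finite := (Set.finite_Icc 1 N).subset fun m hm => ⟨hm.1, hm.2.1⟩
  have hsub : S ⊆ S' ∪ (Set.Icc 1 ⌊ε1 / 2 * N⌋₊ ∪ E) := by
    intro n hn
    obtain ⟨a1, a2, a3⟩ := hn
    by_cases hcase : (n : ℝ) ≤ ε1 / 2 * N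
    · right
      left
      exact ⟨a1, Nat.le_floor hcase⟩
    by_cases hcase2 : n ∈ E
    · right
      right
      exact hcase2
    left
    push Not at hcase
    have hnn : n0 ≤ n := by
      have : (n0 : ℝ) ≤ ε1 / 2 * N := by
        rw [div_le_iff₀ hε1p] at hN2
        linarith
      exact_mod_cast this.trans hcase.le
    have hx3 := (hn0 n hnn).2
    have hl : 0 < Real.log (ord n) := Real.log_pos (by linarith)
    have hl1 : 1 ≤ Real.log (ord n) := by
      rw [Real.le_log_iff_exp_le (by linarith)]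
      linarith [Real.exp_one_lt_d9]
    have hln : 0 ≤ Real.log n := Real.log_nonneg (by exact_mod_cast a1)
    have hsp : ord (n + k) - ord n ≤ 1 * (1 + Real.log n) := by
      have h3 : (ord (n + k) - ord n) ^ 2 ≤ 1 / Real.log (ord n) := by
        by_contra h
        push Not at h
        exact hcase2 ⟨a1, a2, hx3, h⟩
      have h4 : 1 / Real.log (ord n) ≤ 1 := by
        rw [div_le_one hl]
        exact hl1
      have h5 := span_nonneg a1 k
      nlinarith
    have hokn := (hn0 n hnn).1 hsp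
    refine ⟨a1, a2, hx3, ?_⟩
    refine le_trans ?_ (point hm hε1p one_pos hokn hθ'0 hθ'1 hcase.le hε11 hP i hA0 hco' ?_)
    · have h5 : ε1 / (4 * (k + 1)) ≤ ε1 / (2 * (k + 1)) := by
        apply div_le_div_of_nonneg_left hε1p.le (by positivity)
        linarith
      have h6 : 0 ≤ ord n ^ (m - 1) := pow_nonneg (by linarith) _
      gcongr
    · have e1 : ∑ j : Fin k, K / A * cf m P j * ord (n + j) - -(K / A * lead (m - 1) P) =
          K / A * (∑ j : Fin k, cf m P j * ord (n + j) + lead (m - 1) P) := by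
        rw [sub_neg_eq_add, mul_add, Finset.mul_sum]
        congr 1
        refine Finset.sum_congr rfl fun j _ => ?_
        ring
      rw [e1, abs_mul, abs_of_pos (by positivity : 0 < K / A)] at a3
      have e2 : ε1 * A / (K * Real.log (ord n)) = A / K * (ε1 / Real.log (ord n)) := by
        field_simp
      rw [← hK, e2]
      calc A / K * (ε1 / Real.log (ord n)) ≤ A / K * (ε0 / Real.log (ord n)) := by gcongr
        _ ≤ A / K * (K / A * |∑ j : Fin k, cf m P j * ord (n + j) + lead (m - 1) P|) :=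
            mul_le_mul_of_nonneg_left a3 (by positivity)
        _ = _ := by field_simp
  have hcard : (S.ncard : ℝ) ≤ S'.ncard + ε1 / 2 * N + ε1 / 4 * N := by
    have h2 : S.ncard ≤ S'.ncard + ((Set.Icc 1 ⌊ε1 / 2 * N⌋₊ : Set ℕ).ncard + E.ncard) :=
      (Set.ncard_le_ncard hsub (hfin'.union ((Set.finite_Icc _ _).union hfinE))).trans
        ((Set.ncard_union_le _ _).trans (Nat.add_le_add_left (Set.ncard_union_le _ _) _))
    have h3 : (Set.Icc 1 ⌊ε1 / 2 * N⌋₊ : Set ℕ).ncard = ⌊ε1 / 2 * N⌋₊ := by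
      rw [← Finset.coe_Icc, Set.ncard_coe_finset, Nat.card_Icc, Nat.add_sub_cancel]
    rw [h3] at h2
    have h4 : (⌊ε1 / 2 * (N : ℝ)⌋₊ : ℝ) ≤ ε1 / 2 * N := Nat.floor_le (by positivity)
    have h5 : (S.ncard : ℝ) ≤ S'.ncard + ((⌊ε1 / 2 * (N : ℝ)⌋₊ : ℝ) + E.ncard) := by
      exact_mod_cast h2
    linarith
  have h2 : ε1 / (4 * (k + 1)) ≤ ε1 / 4 := by
    apply div_le_div_of_nonneg_left hε1p.le (by norm_num)
    linarith
  have h3 : ε1 / (4 * (k + 1)) * N ≤ ε1 / 4 * N := mul_le_mul_of_nonneg_right h2 (by linarith)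
  have h4 : ε1 * N ≤ ε0 * N := mul_le_mul_of_nonneg_right hε10 (by linarith)
  linarith

/-- **polynomial relations, general case** -/
theorem poly2 (k : ℕ) {ε0 : ℝ} (hL : LinC k ε0) (P : MvPolynomial (Fin k) ℝ)
    (hP : MvPolynomial.coeff 0 (sPoly P).leadingCoeff ≠ 0 ∨
      ∃ j : Fin k, MvPolynomial.coeff (Finsupp.single j 1) (sPoly P).leadingCoeff ≠ 0) :
    ∃ c : ℝ, 0 < c ∧ ∀ᶠ N : ℕ in atTop,
      min ε0 1 / (4 * (k + 1)) * N ≤ ({n : ℕ | 1 ≤ n ∧ n ≤ N ∧ 3 ≤ ord n ∧
        c * ord n ^ (sPoly P).natDegree / Real.log (ord n) ≤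
          |MvPolynomial.eval (fun j : Fin k => ord (n + j)) P|}.ncard : ℝ) := by
  obtain ⟨hε0, h0⟩ := hL
  set ε1 : ℝ := min ε0 1 with hε1
  have hε1p : 0 < ε1 := lt_min hε0 one_pos
  have hε11 : ε1 ≤ 1 := min_le_right _ _
  have hε10 : ε1 ≤ ε0 := min_le_left _ _
  have hk0 : (0 : ℝ) ≤ k := Nat.cast_nonneg _
  obtain ⟨M, hM, hlow⟩ := lower P
  obtain ⟨C, hC, hT⟩ := taylor_bd (sPoly P).leadingCoeff
  have hlz := lin_sum_zero P
  set a := (sPoly P).natDegree with ha
  set q := (sPoly P).leadingCoeff with hq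
  -- it is enough to bound the leading coefficient from below
  suffices key : ∃ κ η : ℝ, 0 < κ ∧ 0 < η ∧ η ≤ 1 ∧ ∀ᶠ N : ℕ in atTop, ∃ S : Set ℕ,
      (S.Finite ∧ ε1 * N ≤ S.ncard) ∧ ∀ n ∈ S, 1 ≤ n ∧ n ≤ N ∧
        (3 ≤ ord n → (ord (n + k) - ord n) ^ 2 ≤ η / Real.log (ord n) →
          κ / Real.log (ord n) ≤ |MvPolynomial.eval (fun j : Fin k => ord (n + j) - ord n) q|) by
    obtain ⟨κ, η, hκ, hη, hη1, hkey⟩ := key
    refine ⟨κ / 2, by positivity, ?_⟩
    have hbig : ∀ᶠ x : ℝ in atTop, 2 * M / κ * Real.log x ≤ x := by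
      have h2 := (isLittleO_log_rpow_rpow_atTop 1 (by norm_num : (0 : ℝ) < 1)).bound
        (c := 1 / (2 * M / κ + 1)) (by positivity)
      filter_upwards [h2, eventually_gt_atTop 3] with x hx hx3
      have hx0 : 0 < x := by linarith
      have hl : 0 ≤ Real.log x := Real.log_nonneg (by linarith)
      rw [Real.rpow_one, Real.rpow_one, Real.norm_of_nonneg hl,
        Real.norm_of_nonneg hx0.le] at hx
      have h3 : 0 < 2 * M / κ + 1 := by positivity
      rw [div_mul_eq_mul_div, one_mul, le_div_iff₀ h3] at hx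
      have : 2 * M / κ * Real.log x ≤ Real.log x * (2 * M / κ + 1) := by nlinarith
      linarith
    obtain ⟨n0, hn0⟩ := ((ord_tendsto.eventually hbig).and
      (ord_tendsto.eventually_ge_atTop 3)).exists_forall_of_atTop
    have ht : Tendsto (fun n : ℕ => (n : ℝ)) atTop atTop := tendsto_natCast_atTop_atTop
    filter_upwards [hkey, eventually_ge_atTop 1, ht.eventually_ge_atTop (2 * n0 / ε1),
      rare k hη (by positivity : 0 < ε1 / 4)] with N hN hN1 hN2 hN3
    obtain ⟨S, ⟨hSf, hS1⟩, hS2⟩ := hN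
    have hN0 : (1 : ℝ) ≤ N := by exact_mod_cast hN1
    set S' : Set ℕ := {n : ℕ | 1 ≤ n ∧ n ≤ N ∧ 3 ≤ ord n ∧
        κ / 2 * ord n ^ a / Real.log (ord n) ≤
          |MvPolynomial.eval (fun j : Fin k => ord (n + j)) P|} with hS'
    set E : Set ℕ := {n : ℕ | 1 ≤ n ∧ n ≤ N ∧ 3 ≤ ord n ∧
      η / Real.log (ord n) < (ord (n + k) - ord n) ^ 2} with hE
    have hfin' : S'.Finite := (Set.finite_Icc 1 N).subset fun m hm => ⟨hm.1, hm.2.1⟩
    have hfinE : E.Finite := (Set.finite_Icc 1 N).subset fun m hm => ⟨hm.1, hm.2.1⟩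
    have hsub : S ⊆ S' ∪ (Set.Icc 1 ⌊ε1 / 2 * N⌋₊ ∪ E) := by
      intro n hn
      obtain ⟨a1, a2, a3⟩ := hS2 n hn
      by_cases hcase : (n : ℝ) ≤ ε1 / 2 * N
      · right
        left
        exact ⟨a1, Nat.le_floor hcase⟩
      by_cases hcase2 : n ∈ E
      · right
        right
        exact hcase2
      left
      push Not at hcase
      have hnn : n0 ≤ n := by
        have : (n0 : ℝ) ≤ ε1 / 2 * N := by
          rw [div_le_iff₀ hε1p] at hN2
          linarith
        exact_mod_cast this.trans hcase.le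
      obtain ⟨hxb, hx3⟩ := hn0 n hnn
      have hl : 0 < Real.log (ord n) := Real.log_pos (by linarith)
      have hl1 : 1 ≤ Real.log (ord n) := by
        rw [Real.le_log_iff_exp_le (by linarith)]
        linarith [Real.exp_one_lt_d9]
      have hsp2 : (ord (n + k) - ord n) ^ 2 ≤ η / Real.log (ord n) := by
        by_contra h
        push Not at h
        exact hcase2 ⟨a1, a2, hx3, h⟩
      have h5 := span_nonneg a1 k
      have hsp : ord (n + k) - ord n ≤ 1 := by
        have h4 : η / Real.log (ord n) ≤ 1 := by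
          rw [div_le_one hl]
          linarith
        nlinarith
      refine ⟨a1, a2, hx3, ?_⟩
      have a4 := a3 hx3 hsp2
      have hg : ∀ j : Fin k, |ord (n + j) - ord n| ≤ 1 := by
        intro j
        have b1 := span_nonneg a1 j
        have b2 : ord (n + j) ≤ ord (n + k) := SG.ord_mono (by omega) (by have := j.2; omega)
        rw [abs_of_nonneg b1]
        linarith
      have a5 := hlow (ord n) (by linarith) (fun j : Fin k => ord (n + j) - ord n) hg
      have e1 : (fun j : Fin k => ord n + (ord (n + j) - ord n)) =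
          fun j : Fin k => ord (n + j) := by
        funext j
        ring
      rw [e1] at a5
      set x := ord n with hx
      set V := MvPolynomial.eval (fun j : Fin k => ord (n + j)) P with hV
      set W := MvPolynomial.eval (fun j : Fin k => ord (n + j) - x) q with hW
      have hx0 : 0 < x := by linarith
      have hxa : 0 < x ^ a := pow_pos hx0 _
      have a6 : |V - x ^ a * W| ≤ κ / 2 * x ^ a / Real.log x := by
        rw [le_div_iff₀ hl]
        have b1 : |V - x ^ a * W| * Real.log x * x ≤ κ / 2 * x ^ a * x := by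
          calc |V - x ^ a * W| * Real.log x * x = (|V - x ^ a * W| * x) * Real.log x := by ring
            _ ≤ (M * x ^ a) * Real.log x := mul_le_mul_of_nonneg_right a5 hl.le
            _ = κ / 2 * x ^ a * (2 * M / κ * Real.log x) := by field_simp
            _ ≤ κ / 2 * x ^ a * x := mul_le_mul_of_nonneg_left hxb (by positivity)
        exact le_of_mul_le_mul_right b1 hx0
      have a7 : x ^ a * (κ / Real.log x) ≤ |x ^ a * W| := by
        rw [abs_mul, abs_of_pos hxa]
        exact mul_le_mul_of_nonneg_left a4 hxa.le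
      have a8 : |x ^ a * W| ≤ |V| + |V - x ^ a * W| := by
        have : x ^ a * W = V - (V - x ^ a * W) := by ring
        calc |x ^ a * W| = |V - (V - x ^ a * W)| := by rw [← this]
          _ ≤ _ := abs_sub _ _
      have a9 : κ / 2 * x ^ a / Real.log x =
          x ^ a * (κ / Real.log x) - κ / 2 * x ^ a / Real.log x := by ring
      linarith
    have hcard : (S.ncard : ℝ) ≤ S'.ncard + ε1 / 2 * N + ε1 / 4 * N := by
      have h2 : S.ncard ≤ S'.ncard + ((Set.Icc 1 ⌊ε1 / 2 * N⌋₊ : Set ℕ).ncard + E.ncard) :=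
        (Set.ncard_le_ncard hsub (hfin'.union ((Set.finite_Icc _ _).union hfinE))).trans
          ((Set.ncard_union_le _ _).trans (Nat.add_le_add_left (Set.ncard_union_le _ _) _))
      have h3 : (Set.Icc 1 ⌊ε1 / 2 * N⌋₊ : Set ℕ).ncard = ⌊ε1 / 2 * N⌋₊ := by
        rw [← Finset.coe_Icc, Set.ncard_coe_finset, Nat.card_Icc, Nat.add_sub_cancel]
      rw [h3] at h2
      have h4 : (⌊ε1 / 2 * (N : ℝ)⌋₊ : ℝ) ≤ ε1 / 2 * N := Nat.floor_le (by positivity)
      have h5 : (S.ncard : ℝ) ≤ S'.ncard + ((⌊ε1 / 2 * (N : ℝ)⌋₊ : ℝ) + E.ncard) := by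
        exact_mod_cast h2
      linarith
    have h2 : ε1 / (4 * (k + 1)) ≤ ε1 / 4 := by
      apply div_le_div_of_nonneg_left hε1p.le (by norm_num)
      linarith
    have h3 : ε1 / (4 * (k + 1)) * N ≤ ε1 / 4 * N := mul_le_mul_of_nonneg_right h2 (by linarith)
    linarith
  -- the two cases
  have hG : ∀ (η : ℝ), 0 < η → η ≤ 1 → ∀ n : ℕ, 1 ≤ n → 3 ≤ ord n →
      (ord (n + k) - ord n) ^ 2 ≤ η / Real.log (ord n) →
      |MvPolynomial.eval (fun j : Fin k => ord (n + j) - ord n) q - MvPolynomial.coeff 0 q -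
        ∑ j : Fin k, MvPolynomial.coeff (Finsupp.single j 1) q * ord (n + j)| ≤
        C * (η / Real.log (ord n)) := by
    intro η hη hη1 n hn1 hx3 hsp2
    have hl : 0 < Real.log (ord n) := Real.log_pos (by linarith)
    have hl1 : 1 ≤ Real.log (ord n) := by
      rw [Real.le_log_iff_exp_le (by linarith)]
      linarith [Real.exp_one_lt_d9]
    have h5 := span_nonneg hn1 k
    have hsp : ord (n + k) - ord n ≤ 1 := by
      have h4 : η / Real.log (ord n) ≤ 1 := by
        rw [div_le_one hl]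
        linarith
      nlinarith
    have hg : ∀ j : Fin k, |ord (n + j) - ord n| ≤ ord (n + k) - ord n := by
      intro j
      have b1 := span_nonneg hn1 j
      have b2 : ord (n + j) ≤ ord (n + k) := SG.ord_mono (by omega) (by have := j.2; omega)
      rw [abs_of_nonneg b1]
      linarith
    have h6 := hT (ord (n + k) - ord n) h5 hsp (fun j : Fin k => ord (n + j) - ord n) hg
    have e1 : ∑ j : Fin k, MvPolynomial.coeff (Finsupp.single j 1) q * (ord (n + j) - ord n) =
        ∑ j : Fin k, MvPolynomial.coeff (Finsupp.single j 1) q * ord (n + j) := by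
      simp_rw [mul_sub]
      rw [Finset.sum_sub_distrib, ← Finset.sum_mul, hlz, zero_mul, sub_zero]
    rw [e1] at h6
    exact h6.trans (mul_le_mul_of_nonneg_left hsp2 hC)
  by_cases hq0 : MvPolynomial.coeff 0 q = 0
  · obtain ⟨i, hi⟩ : ∃ j : Fin k, MvPolynomial.coeff (Finsupp.single j 1) q ≠ 0 := by
      rcases hP with h | h
      · exact absurd hq0 h
      · exact h
    set A := |MvPolynomial.coeff (Finsupp.single i 1) q| with hA
    have hA0 : 0 < A := abs_pos.mpr hi
    set η : ℝ := min 1 (A * ε1 / (2 * (C + 1))) with hη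
    have hη0 : 0 < η := by positivity
    have hη1 : η ≤ 1 := min_le_left _ _
    have hη2 : C * η ≤ A * ε1 / 2 := by
      have h1 : η ≤ A * ε1 / (2 * (C + 1)) := min_le_right _ _
      rw [le_div_iff₀ (by positivity)] at h1
      nlinarith
    refine ⟨A * ε1 / 2, η, by positivity, hη0, hη1, ?_⟩
    filter_upwards [h0] with N hN
    have h1 := hN (fun j => MvPolynomial.coeff (Finsupp.single j 1) q / A) ⟨i, by
      rw [abs_div, abs_of_pos hA0, ← hA, div_self hA0.ne']⟩ 0
    refine ⟨_, ⟨(Set.finite_Icc 1 N).subset fun m hm => ⟨hm.1, hm.2.1⟩,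
      le_trans (mul_le_mul_of_nonneg_right hε10 (Nat.cast_nonneg _)) h1⟩, ?_⟩
    rintro n ⟨a1, a2, a3⟩
    refine ⟨a1, a2, fun hx3 hsp2 => ?_⟩
    have h2 := hG η hη0 hη1 n a1 hx3 hsp2
    rw [hq0, sub_zero] at h2
    have hl : 0 < Real.log (ord n) := Real.log_pos (by linarith)
    have e1 : ∑ j : Fin k, MvPolynomial.coeff (Finsupp.single j 1) q / A * ord (n + j) - 0 =
        (∑ j : Fin k, MvPolynomial.coeff (Finsupp.single j 1) q * ord (n + j)) / A := by
      rw [sub_zero, Finset.sum_div]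
      refine Finset.sum_congr rfl fun j _ => ?_
      ring
    rw [e1, abs_div, abs_of_pos hA0, le_div_iff₀ hA0] at a3
    set V := MvPolynomial.eval (fun j : Fin k => ord (n + j) - ord n) q with hV
    set W := ∑ j : Fin k, MvPolynomial.coeff (Finsupp.single j 1) q * ord (n + j) with hW
    have h3 : |W| ≤ |V| + |V - W| := by
      have : W = V - (V - W) := by ring
      calc |W| = |V - (V - W)| := by rw [← this]
        _ ≤ _ := abs_sub _ _
    have h4 : C * (η / Real.log (ord n)) ≤ A * ε1 / 2 / Real.log (ord n) := by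
      rw [← mul_div_assoc]
      exact div_le_div_of_nonneg_right hη2 hl.le
    have h5 : ε1 / Real.log (ord n) * A ≤ ε0 / Real.log (ord n) * A := by gcongr
    have h6 : ε1 / Real.log (ord n) * A =
        A * ε1 / 2 / Real.log (ord n) + A * ε1 / 2 / Real.log (ord n) := by ring
    linarith
  · set A := |MvPolynomial.coeff 0 q| with hA
    have hA0 : 0 < A := abs_pos.mpr hq0
    set B := ∑ j : Fin k, |MvPolynomial.coeff (Finsupp.single j 1) q| with hB
    have hB0 : 0 ≤ B := Finset.sum_nonneg fun j _ => abs_nonneg _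
    set η : ℝ := min 1 ((A / (2 * (B + C + 1))) ^ 2) with hη
    have hη0 : 0 < η := by positivity
    have hη1 : η ≤ 1 := min_le_left _ _
    refine ⟨A / 2, η, by positivity, hη0, hη1, Eventually.of_forall fun N => ?_⟩
    refine ⟨Set.Icc 1 N, ⟨Set.finite_Icc _ _, ?_⟩, ?_⟩
    · have : (Set.Icc 1 N : Set ℕ).ncard = N := by
        rw [← Finset.coe_Icc, Set.ncard_coe_finset, Nat.card_Icc, Nat.add_sub_cancel]
      rw [this]
      exact mul_le_of_le_one_left (Nat.cast_nonneg _) hε11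
    rintro n ⟨a1, a2⟩
    refine ⟨a1, a2, fun hx3 hsp2 => ?_⟩
    have hl : 0 < Real.log (ord n) := Real.log_pos (by linarith)
    have hl1 : 1 ≤ Real.log (ord n) := by
      rw [Real.le_log_iff_exp_le (by linarith)]
      linarith [Real.exp_one_lt_d9]
    have h5 := span_nonneg a1 k
    set G := ord (n + k) - ord n with hGd
    have hG2 : G ^ 2 ≤ (A / (2 * (B + C + 1))) ^ 2 := by
      refine hsp2.trans ((div_le_self hη0.le hl1).trans (min_le_right _ _))
    have hG1 : G ^ 2 ≤ 1 := hsp2.trans ((div_le_self hη0.le hl1).trans hη1)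
    have hG3 : G ≤ A / (2 * (B + C + 1)) :=
      (pow_le_pow_iff_left₀ h5 (by positivity) two_ne_zero).mp hG2
    have hG4 : G ≤ 1 := by nlinarith
    have hg : ∀ j : Fin k, |ord (n + j) - ord n| ≤ G := by
      intro j
      have b1 := span_nonneg a1 j
      have b2 : ord (n + j) ≤ ord (n + k) := SG.ord_mono (by omega) (by have := j.2; omega)
      rw [abs_of_nonneg b1, hGd]
      linarith
    have h6 := hT G h5 hG4 (fun j : Fin k => ord (n + j) - ord n) hg
    have h7 : |∑ j : Fin k, MvPolynomial.coeff (Finsupp.single j 1) q * (ord (n + j) - ord n)| ≤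
        B * G := by
      rw [hB, Finset.sum_mul]
      refine (Finset.abs_sum_le_sum_abs _ _).trans (Finset.sum_le_sum fun j _ => ?_)
      rw [abs_mul]
      exact mul_le_mul_of_nonneg_left (hg j) (abs_nonneg _)
    set V := MvPolynomial.eval (fun j : Fin k => ord (n + j) - ord n) q with hV
    set W := ∑ j : Fin k, MvPolynomial.coeff (Finsupp.single j 1) q * (ord (n + j) - ord n) with hW
    have h8 : A ≤ |V| + |V - MvPolynomial.coeff 0 q - W| + |W| := by
      have : MvPolynomial.coeff 0 q = V - (V - MvPolynomial.coeff 0 q - W) - W := by ring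
      calc A = |V - (V - MvPolynomial.coeff 0 q - W) - W| := by rw [← this]
        _ ≤ |V - (V - MvPolynomial.coeff 0 q - W)| + |W| := abs_sub _ _
        _ ≤ _ := by
          have := abs_sub V (V - MvPolynomial.coeff 0 q - W)
          linarith
    have h9 : C * G ^ 2 + B * G ≤ A / 2 := by
      rw [le_div_iff₀ (by positivity)] at hG3
      have : C * G ^ 2 ≤ C * G := by
        apply mul_le_mul_of_nonneg_left _ hC
        nlinarith
      nlinarith
    have h10 : A / 2 / Real.log (ord n) ≤ A / 2 := div_le_self (by positivity) hl1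
    linarith

/-- **polynomial relations between consecutive ordinates** -/
theorem poly (k : ℕ) : ∃ ε : ℝ, 0 < ε ∧
    (∀ P : MvPolynomial (Fin k) ℝ, (MvPolynomial.coeff 0 (sPoly P).leadingCoeff ≠ 0 ∨
      ∃ j : Fin k, MvPolynomial.coeff (Finsupp.single j 1) (sPoly P).leadingCoeff ≠ 0) →
      ∃ c : ℝ, 0 < c ∧ ∀ᶠ N : ℕ in atTop,
        ε * N ≤ ({n : ℕ | 1 ≤ n ∧ n ≤ N ∧ 3 ≤ ord n ∧
          c * ord n ^ (sPoly P).natDegree / Real.log (ord n) ≤
            |MvPolynomial.eval (fun j : Fin k => ord (n + j)) P|}.ncard : ℝ)) ∧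
    (∀ m : ℕ, 1 ≤ m → ∀ θ : ℝ,
    θ < 1 → ∀ᶠ N : ℕ in atTop, ∀ P : MvPolynomial (Fin k) ℝ, P.totalDegree ≤ m → ∀ i : Fin k,
      grad m P i ≠ 0 → (∀ s, |MvPolynomial.coeff s P| ≤ |grad m P i| * (N : ℝ) ^ θ) →
      ε * N ≤ ({n : ℕ | 1 ≤ n ∧ n ≤ N ∧ 3 ≤ ord n ∧
        ε / m * |grad m P i| * ord n ^ (m - 1) / Real.log (ord n) ≤
          |MvPolynomial.eval (fun j : Fin k => ord (n + j)) P|}.ncard : ℝ)) := by
  obtain ⟨ε0, hε0, h0⟩ := ordinates k
  refine ⟨min ε0 1 / (4 * (k + 1)), by positivity, fun P hP => poly2 k ⟨hε0, h0⟩ P hP,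
    poly1 k ⟨hε0, h0⟩⟩

end Pool.Agent.Q173.NL
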