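import Pool.Agent.Q173.NL.Lin
import Pool.Agent.Q31.GP.Base

/-! # Long gaps are rare -/

set_option autoImplicit false

open Filter Topology Set

namespace Pool.Agent.Q173.NL

open SG (ord NZ)
open Pool.Agent.Y743.LR (ord_tendsto ord_step)

lemma span_nonneg {n : ℕ} (hn : 1 ≤ n) (k : ℕ) : 0 ≤ ord (n + k) - ord n := by
  have := SG.ord_mono hn (Nat.le_add_right n k)
  linarith

lemma sum_span (k N : ℕ) : ∑ n ∈ Finset.Icc 1 N, (ord (n + k) - ord n) ≤ k * ord (N + k) := by
  induction k with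
  | zero => simp
  | succ k ih =>
    have e0 : Finset.Icc 1 N = Finset.Ico 1 (N + 1) := by
      ext n; rw [Finset.mem_Icc, Finset.mem_Ico]; omega
    have h2 : ∑ n ∈ Finset.Icc 1 N, (ord (n + 1 + k) - ord (n + k)) =
        ord (N + 1 + k) - ord (1 + k) := by
      rw [e0]
      exact Finset.sum_Ico_sub (fun n => ord (n + k)) (show 1 ≤ N + 1 by omega)
    have h1 : ∑ n ∈ Finset.Icc 1 N, (ord (n + (k + 1)) - ord n) =
        ∑ n ∈ Finset.Icc 1 N, (ord (n + k) - ord n) + (ord (N + 1 + k) - ord (1 + k)) := by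
      rw [← h2, ← Finset.sum_add_distrib]
      refine Finset.sum_congr rfl fun n _ => ?_
      have : n + (k + 1) = n + 1 + k := by ring
      rw [this]
      ring
    have h3 : 0 < ord (1 + k) := SG.ord_pos (by omega)
    have h4 : (k : ℝ) * ord (N + k) ≤ k * ord (N + 1 + k) := by
      rcases Nat.eq_zero_or_pos k with h | h
      · rw [h]
        simp
      · exact mul_le_mul_of_nonneg_left (SG.ord_mono (by omega) (by omega)) (Nat.cast_nonneg _)
    have h5 : N + (k + 1) = N + 1 + k := by ring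
    rw [h1, h5]
    push_cast
    linarith

/-- **long gaps are rare** -/
lemma rare (k : ℕ) {η δ : ℝ} (hη : 0 < η) (hδ : 0 < δ) : ∀ᶠ N : ℕ in atTop,
    ({n : ℕ | 1 ≤ n ∧ n ≤ N ∧ 3 ≤ ord n ∧
      η / Real.log (ord n) < (ord (n + k) - ord n) ^ 2}.ncard : ℝ) ≤ δ * N := by
  classical
  have hpi := Real.pi_pos
  have h1 : ∀ᶠ N : ℕ in atTop, Q31.GP.X (ord (N + k)) ≤ 2 * ((N + k : ℕ) : ℝ) := by
    have := (tendsto_add_atTop_nat k).eventually
      ((Q31.GP.ord_asymp 1 one_pos).mono fun N h => h.1)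
    filter_upwards [this] with N h
    linarith
  have hlim : Tendsto (fun N : ℕ => ord (N + k)) atTop atTop :=
    ord_tendsto.comp (tendsto_add_atTop_nat k)
  have h2 : Tendsto (fun N : ℕ => Real.sqrt (Real.log (ord (N + k)))) atTop atTop :=
    Real.tendsto_sqrt_atTop.comp (Real.tendsto_log_atTop.comp hlim)
  filter_upwards [h1, h2.eventually_ge_atTop (8 * Real.pi * (k + 1) / (δ * Real.sqrt η)),
    hlim.eventually_ge_atTop 3, eventually_ge_atTop k] with N a1 a2 a3 a4
  set Y := ord (N + k) with hY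
  set L := Real.log Y with hL
  have hL0 : 0 < L := Real.log_pos (by linarith)
  have hk0 : (0 : ℝ) ≤ k := Nat.cast_nonneg _
  have hNk : ((N + k : ℕ) : ℝ) ≤ 2 * N := by
    push_cast
    have : (k : ℝ) ≤ N := by exact_mod_cast a4
    linarith
  set s := Real.sqrt η with hs
  have hs0 : 0 < s := Real.sqrt_pos.2 hη
  have hs2 : s ^ 2 = η := Real.sq_sqrt hη.le
  set l := Real.sqrt L with hl
  have hl0 : 0 < l := Real.sqrt_pos.2 hL0
  have hl2 : l ^ 2 = L := Real.sq_sqrt hL0.le
  set F := (Finset.Icc 1 N).filter (fun n => s / l ≤ ord (n + k) - ord n) with hF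
  have hsub : {n : ℕ | 1 ≤ n ∧ n ≤ N ∧ 3 ≤ ord n ∧
      η / Real.log (ord n) < (ord (n + k) - ord n) ^ 2} ⊆ (F : Set ℕ) := by
    rintro n ⟨b1, b2, b3, b4⟩
    rw [hF, Finset.coe_filter, Set.mem_ofPred_eq, Finset.mem_Icc]
    refine ⟨⟨b1, b2⟩, ?_⟩
    have b5 : ord n ≤ Y := SG.ord_mono b1 (by omega)
    have b6 : 0 < Real.log (ord n) := Real.log_pos (by linarith)
    have b7 : Real.log (ord n) ≤ L := Real.log_le_log (by linarith) b5
    have b8 : (s / l) ^ 2 ≤ (ord (n + k) - ord n) ^ 2 := by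
      rw [div_pow, hs2, hl2]
      refine le_trans ?_ b4.le
      exact div_le_div_of_nonneg_left hη.le b6 b7
    exact (pow_le_pow_iff_left₀ (by positivity) (span_nonneg b1 k) two_ne_zero).mp b8
  have hcard : ({n : ℕ | 1 ≤ n ∧ n ≤ N ∧ 3 ≤ ord n ∧
      η / Real.log (ord n) < (ord (n + k) - ord n) ^ 2}.ncard : ℝ) ≤ F.card := by
    have := Set.ncard_le_ncard hsub (Finset.finite_toSet _)
    rw [Set.ncard_coe_finset] at this
    exact_mod_cast this
  have hsum : s / l * F.card ≤ k * Y := by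
    calc s / l * F.card = ∑ _n ∈ F, s / l := by
          rw [Finset.sum_const, nsmul_eq_mul]; ring
      _ ≤ ∑ n ∈ F, (ord (n + k) - ord n) := by
          refine Finset.sum_le_sum fun n hn => ?_
          rw [hF, Finset.mem_filter] at hn
          exact hn.2
      _ ≤ ∑ n ∈ Finset.Icc 1 N, (ord (n + k) - ord n) := by
          refine Finset.sum_le_sum_of_subset_of_nonneg (Finset.filter_subset _ _) fun n hn _ => ?_
          rw [Finset.mem_Icc] at hn
          exact span_nonneg hn.1 k
      _ ≤ _ := sum_span k N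
  have hYL : Y * L ≤ 8 * Real.pi * N := by
    unfold Q31.GP.X at a1
    have h3 : Y * L = 2 * Real.pi * (Y / (2 * Real.pi) * L) := by field_simp
    rw [h3]
    calc 2 * Real.pi * (Y / (2 * Real.pi) * L) ≤ 2 * Real.pi * (2 * (2 * N)) := by
          apply mul_le_mul_of_nonneg_left _ (by positivity)
          linarith
      _ = _ := by ring
  have h4 : s * F.card * l ≤ 8 * Real.pi * (k + 1) * N := by
    have h5 : s * F.card ≤ k * Y * l := by
      have : s * F.card = s / l * F.card * l := by field_simp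
      rw [this]
      exact mul_le_mul_of_nonneg_right hsum hl0.le
    calc s * F.card * l ≤ k * Y * l * l := mul_le_mul_of_nonneg_right h5 hl0.le
      _ = k * (Y * L) := by rw [← hl2]; ring
      _ ≤ k * (8 * Real.pi * N) := mul_le_mul_of_nonneg_left hYL hk0
      _ ≤ 8 * Real.pi * (k + 1) * N := by
          have : 0 ≤ 8 * Real.pi * (N : ℝ) := by positivity
          nlinarith
  rw [div_le_iff₀ (by positivity)] at a2
  have h5 : (F.card : ℝ) * (8 * Real.pi * (k + 1)) ≤ δ * N * (8 * Real.pi * (k + 1)) := by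
    calc (F.card : ℝ) * (8 * Real.pi * (k + 1)) ≤ F.card * (l * (δ * s)) :=
          mul_le_mul_of_nonneg_left a2 (Nat.cast_nonneg _)
      _ = δ * (s * F.card * l) := by ring
      _ ≤ δ * (8 * Real.pi * (k + 1) * N) := mul_le_mul_of_nonneg_left h4 hδ.le
      _ = _ := by ring
  exact hcard.trans (le_of_mul_le_mul_right h5 (by positivity))

end Pool.Agent.Q173.NL
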